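import Mathlib
import Pool.Agent.H5.Goddyn.Defs

/-!
Definitions for the two faithful circuit covers of `(G - e, w)` in a critical contra pair
(MP_a46c6f_co).
-/

set_option autoImplicit false

namespace Pool.Agent.H98.TC

open SimpleGraph Pool.Agent.H5.Goddyn

variable {V : Type*}

/-- The graph formed by the edges of `G` of positive weight. -/
def support (G : SimpleGraph V) (w : Sym2 V → ℕ) : SimpleGraph V :=
  SimpleGraph.fromEdgeSet {e | e ∈ G.edgeSet ∧ 0 < w e}

/-- The weight `w` is eulerian on `G`: at every vertex of `G` there is an even number of edges of odd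
weight. -/
def Eulerian (G : SimpleGraph V) (w : Sym2 V → ℕ) : Prop :=
  ∀ v, Even {u | G.Adj v u ∧ Odd (w s(v, u))}.ncard

/-- No edge of `G` is a bridge. -/
def Bridgeless (G : SimpleGraph V) : Prop :=
  ∀ e ∈ G.edgeSet, ¬ G.IsBridge e

open Classical in
/-- The circuit `C` of `G` is removable in `(G, w)`, where `w` has the values `1` and `2`: one has
`w = w₁ + χ_C`, where `w₁ ≥ 0` is eulerian on its support and the support is bridgeless. -/
def Removable (G : SimpleGraph V) (w : Sym2 V → ℕ) (C : G.Subgraph) : Prop :=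
  IsCircuit C ∧ ∃ w₁ : Sym2 V → ℕ,
    (∀ e ∈ G.edgeSet, w e = w₁ e + if e ∈ C.edgeSet then 1 else 0) ∧
    Eulerian (support G w₁) w₁ ∧ Bridgeless (support G w₁)

/-- The set `F` of subgraphs is a faithful circuit cover of `(G, w)`: its members are circuits of `G`
and every edge `e` of `G` lies in exactly `w e` of them. -/
def IsFCC (G : SimpleGraph V) (w : Sym2 V → ℕ) (F : Set G.Subgraph) : Prop :=
  (∀ C ∈ F, IsCircuit C) ∧ ∀ e ∈ G.edgeSet, {C | C ∈ F ∧ e ∈ C.edgeSet}.ncard = w e

/-- The graph `G` without the edge `xy`. -/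
abbrev del (G : SimpleGraph V) (x y : V) : SimpleGraph V := G.deleteEdges {s(x, y)}

/-- The edges in the members of `F` other than `A`. -/
def others {H : SimpleGraph V} (F : Set H.Subgraph) (A : H.Subgraph) : SimpleGraph V where
  Adj u v := ∃ C ∈ F, C ≠ A ∧ C.Adj u v
  symm := ⟨fun _ _ ⟨C, h1, h2, h3⟩ => ⟨C, h1, h2, h3.symm⟩⟩
  loopless := ⟨fun _ ⟨C, _, _, h3⟩ => C.loopless.irrefl _ h3⟩

/-- A colouring of the members of `F`: members which meet have different colours, the member through
`x` has colour `false`, the member through `y` has colour `β`. -/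
def IsCol {H : SimpleGraph V} (F : Set H.Subgraph) (x y : V) (β : Bool) (col : H.Subgraph → Bool) :
    Prop :=
  (∀ C ∈ F, ∀ D ∈ F, C ≠ D → ¬ Disjoint C.verts D.verts → col C ≠ col D) ∧
    (∀ C ∈ F, x ∈ C.verts → col C = false) ∧ ∀ C ∈ F, y ∈ C.verts → col C = β

end Pool.Agent.H98.TC
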