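import Mathlib
import Pool.Agent.H98.TC.Defs

set_option autoImplicit false

namespace Pool.Agent.H98.TC

open SimpleGraph Pool.Agent.H5.Goddyn

variable {V : Type*}

theorem cover' {G : SimpleGraph V} {M C₁ C₂ : G.Subgraph} (h : IsPermutationGraph G M C₁ C₂)
    (v : V) : v ∈ C₁.verts ∨ v ∈ C₂.verts := by
  have h3 := h.cubic v
  obtain ⟨m, hm, hmu⟩ := (Subgraph.isPerfectMatching_iff.1 h.perfect) v
  have : ∃ u ∈ G.neighborSet v, u ≠ m := by
    by_contra hcon
    push Not at hcon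
    have h4 : G.neighborSet v ⊆ {m} := fun u hu => hcon u hu
    have h5 := Set.ncard_le_ncard h4 (Set.finite_singleton m)
    rw [h3, Set.ncard_singleton] at h5
    omega
  obtain ⟨u, hu, hum⟩ := this
  have h6 : ¬ M.Adj v u := fun hMu => hum (hmu u hMu)
  rcases (h.union v u).1 ⟨hu, h6⟩ with h7 | h7
  · exact Or.inl (C₁.edge_vert h7)
  · exact Or.inr (C₂.edge_vert h7)

theorem swap' {G : SimpleGraph V} {M C₁ C₂ : G.Subgraph} (h : IsPermutationGraph G M C₁ C₂) :
    IsPermutationGraph G M C₂ C₁ where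
  cubic := h.cubic
  perfect := h.perfect
  circuit₁ := h.circuit₂
  circuit₂ := h.circuit₁
  disjoint := h.disjoint.symm
  union := fun u v => (h.union u v).trans or_comm
  chordless₁ := h.chordless₂
  chordless₂ := h.chordless₁

theorem other' {G : SimpleGraph V} {M C₁ C₂ : G.Subgraph} (h : IsPermutationGraph G M C₁ C₂)
    {x y : V} (hxy : M.Adj x y) (hx : x ∈ C₁.verts) : y ∈ C₂.verts := by
  rcases cover' h y with hy | hy
  · exfalso
    have h1 : C₁.Adj x y := h.chordless₁ hx hy (M.adj_sub hxy)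
    exact ((h.union x y).2 (Or.inl h1)).2 hxy
  · exact hy

theorem conn_aux [Finite V] (G : SimpleGraph V) (M C₁ C₂ : G.Subgraph)
    (h : IsPermutationGraph G M C₁ C₂) (x y : V) (hxy : M.Adj x y) (hx : x ∈ C₁.verts) :
    (del G x y).Reachable x y ∧ ∀ F : Set (del G x y).Subgraph, IsFCC (del G x y) (wt M) F →
      ∀ A ∈ F, ∃ B ∈ F, B ≠ A := by
  classical
  have hy : y ∈ C₂.verts := other' h hxy hx
  have hM := Subgraph.isPerfectMatching_iff.1 h.perfect
  have hdis : ∀ v, v ∈ C₁.verts → v ∈ C₂.verts → False := fun v h1 h2 =>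
    Set.disjoint_left.1 h.disjoint h1 h2
  obtain ⟨a, ha⟩ : (C₁.neighborSet x).Nonempty := by
    apply Set.nonempty_of_ncard_ne_zero
    rw [h.circuit₁.2 x hx]
    omega
  have hxa : C₁.Adj x a := ha
  have haC : a ∈ C₁.verts := C₁.edge_vert hxa.symm
  have hane : a ≠ x := hxa.ne.symm
  obtain ⟨y', hay', hu⟩ := hM a
  have hy'C : y' ∈ C₂.verts := other' h hay' haC
  have hy'ne : y' ≠ y := by
    rintro rfl
    obtain ⟨w, hw, hwu⟩ := hM y'
    have e1 := hwu a hay'.symm
    have e2 := hwu x hxy.symm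
    exact hane (e1.trans e2.symm)
  have hadj : (del G x y).Adj a y' := by
    rw [deleteEdges_adj]
    refine ⟨M.adj_sub hay', ?_⟩
    intro he
    rw [Set.mem_singleton_iff, Sym2.eq_iff] at he
    rcases he with ⟨h1, _⟩ | ⟨h1, _⟩
    · exact hane h1
    · exact hdis a haC (h1 ▸ hy)
  have hxa' : (del G x y).Adj x a := by
    rw [deleteEdges_adj]
    refine ⟨C₁.adj_sub hxa, ?_⟩
    intro he
    rw [Set.mem_singleton_iff, Sym2.eq_iff] at he
    rcases he with ⟨_, h1⟩ | ⟨_, h1⟩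
    · exact hdis a haC (h1 ▸ hy)
    · exact hane h1
  have hC2 : ∀ u v, C₂.Adj u v → (del G x y).Adj u v := by
    intro u v huv
    rw [deleteEdges_adj]
    refine ⟨C₂.adj_sub huv, ?_⟩
    intro he
    rw [Set.mem_singleton_iff, Sym2.eq_iff] at he
    rcases he with ⟨h1, _⟩ | ⟨_, h1⟩
    · exact hdis x hx (h1 ▸ C₂.edge_vert huv)
    · exact hdis x hx (h1 ▸ C₂.edge_vert huv.symm)
  have hreach : (del G x y).Reachable y' y := by
    have h1 := h.circuit₂.1.coe.preconnected ⟨y', hy'C⟩ ⟨y, hy⟩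
    obtain ⟨q⟩ := h1
    exact ⟨q.map ⟨fun v => v.1, fun {u v} huv => hC2 _ _ huv⟩⟩
  refine ⟨(hxa'.reachable.trans hadj.reachable).trans hreach, ?_⟩
  intro F hF A hA
  have h1 := hF.2 s(a, y') hadj
  have h2 : wt M s(a, y') = 2 := by
    rw [wt, if_pos]
    exact hay'
  rw [h2, Set.ncard_eq_two] at h1
  obtain ⟨C, C', hne, hS⟩ := h1
  have hC : C ∈ F := by
    have : C ∈ ({C, C'} : Set (del G x y).Subgraph) := Or.inl rfl
    rw [← hS] at this
    exact this.1
  have hC' : C' ∈ F := by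
    have : C' ∈ ({C, C'} : Set (del G x y).Subgraph) := Or.inr rfl
    rw [← hS] at this
    exact this.1
  by_cases hAC : A = C
  · exact ⟨C', hC', by rw [hAC]; exact hne.symm⟩
  · exact ⟨C, hC, fun e => hAC e.symm⟩

/-- R7: connectedness of `G - xy` -/
theorem conn_del [Finite V] (G : SimpleGraph V) (M C₁ C₂ : G.Subgraph)
    (h : IsPermutationGraph G M C₁ C₂) (x y : V) (hxy : M.Adj x y) :
    (del G x y).Reachable x y ∧ ∀ F : Set (del G x y).Subgraph, IsFCC (del G x y) (wt M) F →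
      ∀ A ∈ F, ∃ B ∈ F, B ≠ A := by
  rcases cover' h x with hx | hx
  · exact conn_aux G M C₁ C₂ h x y hxy hx
  · exact conn_aux G M C₂ C₁ (swap' h) x y hxy hx

end Pool.Agent.H98.TC
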