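import Mathlib
import Pool.Agent.H98.TC.Defs

/-!
The members of a faithful circuit cover of `(G - xy, w)` at a vertex (MP_a46c6f_co).
-/

set_option autoImplicit false

namespace Pool.Agent.H98.TC

open SimpleGraph Pool.Agent.H5.Goddyn

variable {V : Type*}

/-- the neighbours of a vertex of a permutation graph -/
theorem nbr3 [Finite V] (G : SimpleGraph V) (M C₁ C₂ : G.Subgraph)
    (h : IsPermutationGraph G M C₁ C₂) (v : V) :
    ∃ m a b : V, M.Adj v m ∧ G.Adj v a ∧ ¬ M.Adj v a ∧ G.Adj v b ∧ ¬ M.Adj v b ∧ a ≠ b ∧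
      (∀ u, M.Adj v u → u = m) ∧ ∀ u, G.Adj v u → u = m ∨ u = a ∨ u = b := by
  obtain ⟨m, hm, hu⟩ := h.perfect.1 (h.perfect.2 v)
  have hu' : ∀ u, M.Adj v u → u = m := fun u hu1 => hu u hu1
  obtain ⟨p, q, r, hpq, hpr, hqr, hs⟩ := Set.ncard_eq_three.mp (h.cubic v)
  have hG : ∀ u, G.Adj v u ↔ u = p ∨ u = q ∨ u = r := by
    intro u
    rw [← SimpleGraph.mem_neighborSet, hs]
    simp
  have hmG : G.Adj v m := M.adj_sub hm
  rcases (hG m).1 hmG with rfl | rfl | rfl
  · refine ⟨m, q, r, hm, (hG q).2 (by simp), fun hh => hpq (hu' q hh).symm, (hG r).2 (by simp),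
      fun hh => hpr (hu' r hh).symm, hqr, hu', fun u huu => ?_⟩
    rcases (hG u).1 huu with h1 | h1 | h1 <;> simp [h1]
  · refine ⟨m, p, r, hm, (hG p).2 (by simp), fun hh => hpq (hu' p hh), (hG r).2 (by simp),
      fun hh => hqr (hu' r hh).symm, hpr, hu', fun u huu => ?_⟩
    rcases (hG u).1 huu with h1 | h1 | h1 <;> simp [h1]
  · refine ⟨m, p, q, hm, (hG p).2 (by simp), fun hh => hpr (hu' p hh), (hG q).2 (by simp),
      fun hh => hqr (hu' q hh), hpq, hu', fun u huu => ?_⟩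
    rcases (hG u).1 huu with h1 | h1 | h1 <;> simp [h1]

/-- exactly one member contains an edge outside `M` -/
theorem one_member (G : SimpleGraph V) (M : G.Subgraph) (x y : V)
    (F : Set (del G x y).Subgraph) (hF : IsFCC (del G x y) (wt M) F) (v a : V)
    (hva : (del G x y).Adj v a) (hM : ¬ M.Adj v a) :
    ∃ A ∈ F, A.Adj v a ∧ ∀ C ∈ F, C.Adj v a → C = A := by
  have h1 := hF.2 s(v, a) ((SimpleGraph.mem_edgeSet _).2 hva)
  have hw : wt M s(v, a) = 1 := by
    unfold wt
    rw [if_neg]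
    rw [SimpleGraph.Subgraph.mem_edgeSet]
    exact hM
  rw [hw] at h1
  obtain ⟨A, hA⟩ := Set.ncard_eq_one.mp h1
  have hmem : ∀ C : (del G x y).Subgraph, (C ∈ F ∧ C.Adj v a) ↔ C = A := by
    intro C
    have : C ∈ {C | C ∈ F ∧ s(v, a) ∈ C.edgeSet} ↔ C ∈ ({A} : Set (del G x y).Subgraph) := by
      rw [hA]
    simpa [SimpleGraph.Subgraph.mem_edgeSet] using this
  exact ⟨A, ((hmem A).2 rfl).1, ((hmem A).2 rfl).2, fun C hC1 hC2 => (hmem C).1 ⟨hC1, hC2⟩⟩

/-- R2a: exactly one member contains `x` -/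
theorem local1 [Finite V] (G : SimpleGraph V) (M C₁ C₂ : G.Subgraph)
    (h : IsPermutationGraph G M C₁ C₂) (x y : V) (hxy : M.Adj x y)
    (F : Set (del G x y).Subgraph) (hF : IsFCC (del G x y) (wt M) F) (z : V) (hz : z = x ∨ z = y) :
    ∃ A ∈ F, z ∈ A.verts ∧ (∀ u, G.Adj z u → ¬ M.Adj z u → A.Adj z u) ∧
      ∀ C ∈ F, z ∈ C.verts → C = A := by
  obtain ⟨m, a, b, hm, ha, haM, hb, hbM, hab, hmu, hall⟩ := nbr3 G M C₁ C₂ h z
  have hsym : s(z, m) = s(x, y) := by
    rcases hz with rfl | rfl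
    · rw [hmu y hxy]
    · rw [hmu x hxy.symm, Sym2.eq_swap]
  have hH : ∀ u, (del G x y).Adj z u → u = a ∨ u = b := by
    intro u hu
    rw [SimpleGraph.deleteEdges_adj] at hu
    rcases hall u hu.1 with h1 | h1 | h1
    · exfalso
      apply hu.2
      rw [h1, hsym]
      rfl
    · exact Or.inl h1
    · exact Or.inr h1
  have hne : ∀ u, G.Adj z u → ¬ M.Adj z u → (del G x y).Adj z u := by
    intro u hu huM
    rw [SimpleGraph.deleteEdges_adj]
    refine ⟨hu, fun hh => huM ?_⟩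
    have h2 : s(z, u) = s(z, m) := by rw [hsym]; exact hh
    have h3 : u = m := by
      rcases Sym2.eq_iff.1 h2 with ⟨_, h4⟩ | ⟨h4, h5⟩
      · exact h4
      · exact h5.trans h4
    rw [h3]
    exact hm
  obtain ⟨A, hA, hAa, hAu⟩ := one_member G M x y F hF z a (hne a ha haM) haM
  have hnb : ∀ C ∈ F, z ∈ C.verts → C.Adj z a ∧ C.Adj z b := by
    intro C hC hzC
    have h2 := (hF.1 C hC).2 z hzC
    obtain ⟨p, q, hpq, hs⟩ := Set.ncard_eq_two.mp h2
    have hp : C.Adj z p := by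
      have : p ∈ C.neighborSet z := by rw [hs]; simp
      exact this
    have hq : C.Adj z q := by
      have : q ∈ C.neighborSet z := by rw [hs]; simp
      exact this
    rcases hH p (C.adj_sub hp) with h3 | h3 <;> rcases hH q (C.adj_sub hq) with h4 | h4
    · exact absurd (h3.trans h4.symm) hpq
    · exact ⟨h3 ▸ hp, h4 ▸ hq⟩
    · exact ⟨h4 ▸ hq, h3 ▸ hp⟩
    · exact absurd (h3.trans h4.symm) hpq
  have hzA : z ∈ A.verts := A.edge_vert hAa
  refine ⟨A, hA, hzA, fun u hu huM => ?_, fun C hC hzC => hAu C hC (hnb C hC hzC).1⟩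
  rcases hH u (hne u hu huM) with h3 | h3
  · exact h3 ▸ (hnb A hA hzA).1
  · exact h3 ▸ (hnb A hA hzA).2

/-- R2b: exactly two members contain a vertex `v` other than `x`, `y` -/
theorem local2 [Finite V] (G : SimpleGraph V) (M C₁ C₂ : G.Subgraph)
    (h : IsPermutationGraph G M C₁ C₂) (x y : V) (hxy : M.Adj x y)
    (F : Set (del G x y).Subgraph) (hF : IsFCC (del G x y) (wt M) F) (v : V) (hvx : v ≠ x)
    (hvy : v ≠ y) :
    ∃ m a b : V, M.Adj v m ∧ G.Adj v a ∧ ¬ M.Adj v a ∧ G.Adj v b ∧ ¬ M.Adj v b ∧ a ≠ b ∧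
      (∀ u, G.Adj v u → u = m ∨ u = a ∨ u = b) ∧
      ∃ A ∈ F, ∃ B ∈ F, A ≠ B ∧ A.neighborSet v = {m, a} ∧ B.neighborSet v = {m, b} ∧
        ∀ C ∈ F, v ∈ C.verts → C = A ∨ C = B := by
  obtain ⟨m, a, b, hm, ha, haM, hb, hbM, hab, hmu, hall⟩ := nbr3 G M C₁ C₂ h v
  have hma : m ≠ a := fun hh => haM (hh ▸ hm)
  have hmb : m ≠ b := fun hh => hbM (hh ▸ hm)
  have hH : ∀ u, G.Adj v u → (del G x y).Adj v u := by
    intro u hu
    rw [SimpleGraph.deleteEdges_adj]
    refine ⟨hu, fun hh => ?_⟩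
    have h2 : s(v, u) = s(x, y) := hh
    rcases Sym2.eq_iff.1 h2 with ⟨h4, _⟩ | ⟨h4, _⟩
    · exact hvx h4
    · exact hvy h4
  have hHG : ∀ C : (del G x y).Subgraph, ∀ u, C.Adj v u → u = m ∨ u = a ∨ u = b := by
    intro C u hu
    have h1 := C.adj_sub hu
    rw [SimpleGraph.deleteEdges_adj] at h1
    exact hall u h1.1
  obtain ⟨A, hA, hAa, hAu⟩ := one_member G M x y F hF v a (hH a ha) haM
  obtain ⟨B, hB, hBb, hBu⟩ := one_member G M x y F hF v b (hH b hb) hbM
  -- a member through `v` has exactly two of the three neighbours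
  have hnb : ∀ C ∈ F, v ∈ C.verts →
      (C.neighborSet v = {m, a} ∨ C.neighborSet v = {m, b} ∨ C.neighborSet v = {a, b}) := by
    intro C hC hvC
    have h2 := (hF.1 C hC).2 v hvC
    obtain ⟨p, q, hpq, hs⟩ := Set.ncard_eq_two.mp h2
    have hp : C.Adj v p := by
      have : p ∈ C.neighborSet v := by rw [hs]; simp
      exact this
    have hq : C.Adj v q := by
      have : q ∈ C.neighborSet v := by rw [hs]; simp
      exact this
    rw [hs]
    rcases hHG C p hp with h3 | h3 | h3 <;> rcases hHG C q hq with h4 | h4 | h4 <;>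
      first
      | exact absurd (h3.trans h4.symm) hpq
      | (rw [h3, h4]; simp [Set.pair_comm])
  have hadj : ∀ (C : (del G x y).Subgraph) (S : Set V), C.neighborSet v = S → ∀ u, C.Adj v u ↔ u ∈ S := by
    intro C S hS u
    rw [← hS]
    rfl
  -- a member through `vm`
  have hDm : ∃ D ∈ F, D.Adj v m := by
    have h1 := hF.2 s(v, m) ((SimpleGraph.mem_edgeSet _).2 (hH m (M.adj_sub hm)))
    have hw : wt M s(v, m) = 2 := by
      unfold wt
      rw [if_pos]
      rw [SimpleGraph.Subgraph.mem_edgeSet]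
      exact hm
    rw [hw] at h1
    obtain ⟨D, E, _, hs⟩ := Set.ncard_eq_two.mp h1
    have hD : D ∈ {C | C ∈ F ∧ s(v, m) ∈ C.edgeSet} := by rw [hs]; simp
    exact ⟨D, hD.1, SimpleGraph.Subgraph.mem_edgeSet.1 hD.2⟩
  have hAB : A ≠ B := by
    intro hAB
    have hvA : v ∈ A.verts := A.edge_vert hAa
    have hAb : A.Adj v b := by rw [hAB]; exact hBb
    have hAm : ¬ A.Adj v m := by
      rcases hnb A hA hvA with h3 | h3 | h3
      · have := (hadj A _ h3 b).1 hAb
        simp only [Set.mem_insert_iff, Set.mem_singleton_iff] at this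
        rcases this with h5 | h5
        · exact absurd h5.symm hmb
        · exact absurd h5.symm hab
      · have := (hadj A _ h3 a).1 hAa
        simp only [Set.mem_insert_iff, Set.mem_singleton_iff] at this
        rcases this with h5 | h5
        · exact absurd h5.symm hma
        · exact absurd h5 hab
      · intro h6
        have := (hadj A _ h3 m).1 h6
        simp only [Set.mem_insert_iff, Set.mem_singleton_iff] at this
        rcases this with h5 | h5
        · exact hma h5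
        · exact hmb h5
    obtain ⟨D, hD, hDm⟩ := hDm
    rcases hnb D hD (D.edge_vert hDm) with h3 | h3 | h3
    · have h4 : D.Adj v a := (hadj D _ h3 a).2 (by simp)
      exact hAm (hAu D hD h4 ▸ hDm)
    · have h4 : D.Adj v b := (hadj D _ h3 b).2 (by simp)
      have h5 : D = A := (hBu D hD h4).trans hAB.symm
      exact hAm (h5 ▸ hDm)
    · have h4 : D.Adj v a := (hadj D _ h3 a).2 (by simp)
      exact hAm (hAu D hD h4 ▸ hDm)
  refine ⟨m, a, b, hm, ha, haM, hb, hbM, hab, hall, A, hA, B, hB, hAB, ?_, ?_, ?_⟩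
  · rcases hnb A hA (A.edge_vert hAa) with h3 | h3 | h3
    · exact h3
    · exfalso
      exact hAB (hBu A hA ((hadj A _ h3 b).2 (by simp)))
    · exfalso
      exact hAB (hBu A hA ((hadj A _ h3 b).2 (by simp)))
  · rcases hnb B hB (B.edge_vert hBb) with h3 | h3 | h3
    · exfalso
      exact hAB (hAu B hB ((hadj B _ h3 a).2 (by simp))).symm
    · exact h3
    · exfalso
      exact hAB (hAu B hB ((hadj B _ h3 a).2 (by simp))).symm
  · intro C hC hvC
    rcases hnb C hC hvC with h3 | h3 | h3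
    · exact Or.inl (hAu C hC ((hadj C _ h3 a).2 (by simp)))
    · exact Or.inr (hBu C hC ((hadj C _ h3 b).2 (by simp)))
    · exact Or.inl (hAu C hC ((hadj C _ h3 a).2 (by simp)))

end Pool.Agent.H98.TC
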