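import Mathlib
import Pool.Agent.H98.TC.Defs
import Pool.Agent.H98.TC.Local

/-!
The two canonical faithful circuit covers of `(G - xy, w)` (MP_a46c6f_co).
-/

set_option autoImplicit false

namespace Pool.Agent.H98.TC

open SimpleGraph Pool.Agent.H5.Goddyn

variable {V : Type*}

/-- the component of `u` in a graph `K` all of whose edges are edges of `H` -/
def compOf (H K : SimpleGraph V) (hK : ∀ a b, K.Adj a b → H.Adj a b) (u : V) : H.Subgraph where
  verts := {w | K.Reachable u w}
  Adj a b := K.Adj a b ∧ K.Reachable u a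
  adj_sub := fun h => hK _ _ h.1
  edge_vert := fun h => h.2
  symm := ⟨fun _ _ h => ⟨h.1.symm, h.2.trans h.1.reachable⟩⟩

theorem compOf_adj (H K : SimpleGraph V) (hK : ∀ a b, K.Adj a b → H.Adj a b) (u a b : V) :
    (compOf H K hK u).Adj a b ↔ K.Adj a b ∧ K.Reachable u a := Iff.rfl

/-- in a graph with degrees `0` and `2` the component of an edge is a circuit -/
theorem compOf_circuit (H K : SimpleGraph V) (hK : ∀ a b, K.Adj a b → H.Adj a b)
    (hdeg : ∀ v w, K.Adj v w → (K.neighborSet v).ncard = 2) (u v : V) (huv : K.Adj u v) :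
    IsCircuit (compOf H K hK u) := by
  have hreach : ∀ w, K.Reachable u w → ∀ (hu : u ∈ (compOf H K hK u).verts)
      (hw : w ∈ (compOf H K hK u).verts),
      (compOf H K hK u).coe.Reachable ⟨u, hu⟩ ⟨w, hw⟩ := by
    intro w hw
    obtain ⟨p⟩ := hw.symm
    induction p with
    | nil => intro hu hw; exact Reachable.refl _
    | @cons a b c hab p ih =>
      intro hu hw'
      have hbu : K.Reachable c b := ⟨p.reverse⟩
      have hba := ih huv hbu.symm.symm hu hbu
      refine hba.trans (SimpleGraph.Adj.reachable ?_)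
      exact ⟨hab.symm, hbu⟩
  refine ⟨?_, ?_⟩
  · rw [SimpleGraph.Subgraph.connected_iff']
    have : Nonempty (compOf H K hK u).verts := ⟨⟨u, Reachable.refl u⟩⟩
    refine SimpleGraph.Connected.mk ?_
    intro ⟨a, ha⟩ ⟨b, hb⟩
    exact (hreach a ha (Reachable.refl u) ha).symm.trans (hreach b hb (Reachable.refl u) hb)
  · intro w hw
    have hs : (compOf H K hK u).neighborSet w = K.neighborSet w := by
      ext z
      constructor
      · intro hz; exact hz.1
      · intro hz; exact ⟨hz, hw⟩
    rw [hs]
    have hw' : K.Reachable u w := hw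
    obtain ⟨p⟩ := hw'.symm
    cases p with
    | nil => exact hdeg _ _ huv
    | cons hab p => exact hdeg _ _ hab

/-- a circuit contained in `K` is the component of each of its vertices -/
theorem eq_compOf [Finite V] (H K : SimpleGraph V) (hK : ∀ a b, K.Adj a b → H.Adj a b)
    (hdeg : ∀ v w, K.Adj v w → (K.neighborSet v).ncard = 2) (C : H.Subgraph) (hC : IsCircuit C)
    (hCK : ∀ a b, C.Adj a b → K.Adj a b) (u : V) (hu : u ∈ C.verts) : C = compOf H K hK u := by
  have hadj : ∀ w ∈ C.verts, ∀ z, K.Adj w z → C.Adj w z := by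
    intro w hw z hz
    have h2 := hC.2 w hw
    have h3 := hdeg w z hz
    have hsub : C.neighborSet w ⊆ K.neighborSet w := fun t ht => hCK _ _ ht
    have heq : C.neighborSet w = K.neighborSet w :=
      Set.eq_of_subset_of_ncard_le hsub (by rw [h2, h3]) (Set.toFinite _)
    have : z ∈ C.neighborSet w := by rw [heq]; exact hz
    exact this
  have hr1 : ∀ w, K.Reachable u w → w ∈ C.verts := by
    intro w hw
    obtain ⟨p⟩ := hw
    induction p with
    | nil => exact hu
    | @cons a b c hab p ih =>
      exact ih (C.edge_vert (hadj a hu b hab).symm)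
  have hr2 : ∀ w ∈ C.verts, K.Reachable u w := by
    intro w hw
    have hcon := hC.1.coe
    obtain ⟨p⟩ := hcon.preconnected ⟨u, hu⟩ ⟨w, hw⟩
    have hmap : ∀ (a b : C.verts), C.coe.Walk a b → K.Reachable a b := by
      intro a b q
      induction q with
      | nil => exact Reachable.refl _
      | cons hab q ih => exact (SimpleGraph.Adj.reachable (hCK _ _ hab)).trans ih
    exact hmap _ _ p
  refine SimpleGraph.Subgraph.ext ?_ ?_
  · ext w
    exact ⟨fun hw => hr2 w hw, fun hw => hr1 w hw⟩
  · ext a b
    constructor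
    · intro hab
      exact ⟨hCK _ _ hab, hr2 a (C.edge_vert hab)⟩
    · intro hab
      exact hadj a (hr1 a hab.2) b hab.1

theorem bool_aux : ∀ p q c : Bool, p ≠ q → ¬ p = c → q = c := by decide

/-- R6 with one colouring `κ` of the edges outside `M` -/
theorem fam_aux [Finite V] (G : SimpleGraph V) (M C₁ C₂ : G.Subgraph)
    (h : IsPermutationGraph G M C₁ C₂) (x y : V) (hxy : M.Adj x y) (β : Bool) (κ : Sym2 V → Bool)
    (hx : ∀ a, G.Adj x a → ¬ M.Adj x a → κ s(x, a) = false)
    (hy : ∀ a, G.Adj y a → ¬ M.Adj y a → κ s(y, a) = β)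
    (hv : ∀ v, v ≠ x → v ≠ y → ∀ a b, G.Adj v a → ¬ M.Adj v a → G.Adj v b → ¬ M.Adj v b → a ≠ b →
      κ s(v, a) ≠ κ s(v, b)) :
    ∃ (F : Set (del G x y).Subgraph) (col : (del G x y).Subgraph → Bool),
      IsFCC (del G x y) (wt M) F ∧ IsCol F x y β col := by
  classical
  set H := del G x y with hH
  let K : Bool → SimpleGraph V := fun c =>
    { Adj := fun a b => H.Adj a b ∧ (M.Adj a b ∨ κ s(a, b) = c)
      symm := ⟨fun a b hab => ⟨hab.1.symm, hab.2.imp (fun h1 => h1.symm)
        (fun h1 => by rw [Sym2.eq_swap]; exact h1)⟩⟩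
      loopless := ⟨fun a ha => H.loopless.irrefl a ha.1⟩ }
  have hKadj : ∀ c a b, (K c).Adj a b ↔ H.Adj a b ∧ (M.Adj a b ∨ κ s(a, b) = c) :=
    fun c a b => Iff.rfl
  have hKH : ∀ c a b, (K c).Adj a b → H.Adj a b := fun c a b hab => hab.1
  have hHG : ∀ a b, H.Adj a b ↔ G.Adj a b ∧ s(a, b) ≠ s(x, y) := by
    intro a b
    rw [hH, SimpleGraph.deleteEdges_adj]
    simp
  have hMx : ∀ u, M.Adj x u → u = y := by
    intro u hu
    obtain ⟨m, hm, hu'⟩ := h.perfect.1 (h.perfect.2 x)
    rw [hu' u hu, hu' y hxy]
  have hMy : ∀ u, M.Adj y u → u = x := by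
    intro u hu
    obtain ⟨m, hm, hu'⟩ := h.perfect.1 (h.perfect.2 y)
    rw [hu' u hu, hu' x hxy.symm]
  have hMuniq : ∀ v a b, M.Adj v a → M.Adj v b → a = b := by
    intro v a b ha hb
    obtain ⟨m, hm, hu'⟩ := h.perfect.1 (h.perfect.2 v)
    rw [hu' a ha, hu' b hb]
  have hdeg : ∀ c v w, (K c).Adj v w → ((K c).neighborSet v).ncard = 2 := by
    intro c v w hvw
    obtain ⟨m, a, b, hm, ha, haM, hb, hbM, hab, hmu, hall⟩ := nbr3 G M C₁ C₂ h v
    have hma : m ≠ a := fun hh => haM (hh ▸ hm)
    have hmb : m ≠ b := fun hh => hbM (hh ▸ hm)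
    have haH : H.Adj v a := by
      rw [hHG]
      refine ⟨ha, fun hh => haM ?_⟩
      rcases Sym2.eq_iff.1 hh with ⟨h1, h2⟩ | ⟨h1, h2⟩
      · rw [h1, h2]; exact hxy
      · rw [h1, h2]; exact hxy.symm
    have hbH : H.Adj v b := by
      rw [hHG]
      refine ⟨hb, fun hh => hbM ?_⟩
      rcases Sym2.eq_iff.1 hh with ⟨h1, h2⟩ | ⟨h1, h2⟩
      · rw [h1, h2]; exact hxy
      · rw [h1, h2]; exact hxy.symm
    by_cases hvx : v = x
    · have hmy : m = y := hMx m (hvx ▸ hm)
      have hmH : ¬ H.Adj v m := by
        rw [hHG, hvx, hmy]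
        simp
      have hka := hx a (hvx ▸ ha) (hvx ▸ haM)
      have hkb := hx b (hvx ▸ hb) (hvx ▸ hbM)
      rw [← hvx] at hka hkb
      have hc : c = false := by
        rcases hall w ((hHG v w).1 hvw.1).1 with h1 | h1 | h1
        · exact absurd (h1 ▸ hvw.1) hmH
        · rw [h1] at hvw
          rcases hvw.2 with h2 | h2
          · exact absurd h2 haM
          · rw [← h2, hka]
        · rw [h1] at hvw
          rcases hvw.2 with h2 | h2
          · exact absurd h2 hbM
          · rw [← h2, hkb]
      have hs : (K c).neighborSet v = {a, b} := by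
        ext z
        simp only [SimpleGraph.mem_neighborSet, Set.mem_insert_iff, Set.mem_singleton_iff]
        constructor
        · intro hz
          rcases hall z ((hHG v z).1 hz.1).1 with h1 | h1 | h1
          · exact absurd (h1 ▸ hz.1) hmH
          · exact Or.inl h1
          · exact Or.inr h1
        · rintro (h1 | h1)
          · rw [h1]; exact ⟨haH, Or.inr (by rw [hka, hc])⟩
          · rw [h1]; exact ⟨hbH, Or.inr (by rw [hkb, hc])⟩
      rw [hs]
      exact Set.ncard_pair hab
    by_cases hvy : v = y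
    · have hmx : m = x := hMy m (hvy ▸ hm)
      have hmH : ¬ H.Adj v m := by
        rw [hHG, hvy, hmx]
        simp [Sym2.eq_swap]
      have hka := hy a (hvy ▸ ha) (hvy ▸ haM)
      have hkb := hy b (hvy ▸ hb) (hvy ▸ hbM)
      rw [← hvy] at hka hkb
      have hc : c = β := by
        rcases hall w ((hHG v w).1 hvw.1).1 with h1 | h1 | h1
        · exact absurd (h1 ▸ hvw.1) hmH
        · rw [h1] at hvw
          rcases hvw.2 with h2 | h2
          · exact absurd h2 haM
          · rw [← h2, hka]
        · rw [h1] at hvw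
          rcases hvw.2 with h2 | h2
          · exact absurd h2 hbM
          · rw [← h2, hkb]
      have hs : (K c).neighborSet v = {a, b} := by
        ext z
        simp only [SimpleGraph.mem_neighborSet, Set.mem_insert_iff, Set.mem_singleton_iff]
        constructor
        · intro hz
          rcases hall z ((hHG v z).1 hz.1).1 with h1 | h1 | h1
          · exact absurd (h1 ▸ hz.1) hmH
          · exact Or.inl h1
          · exact Or.inr h1
        · rintro (h1 | h1)
          · rw [h1]; exact ⟨haH, Or.inr (by rw [hka, hc])⟩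
          · rw [h1]; exact ⟨hbH, Or.inr (by rw [hkb, hc])⟩
      rw [hs]
      exact Set.ncard_pair hab
    · have hmH : H.Adj v m := by
        rw [hHG]
        refine ⟨M.adj_sub hm, fun hh => ?_⟩
        rcases Sym2.eq_iff.1 hh with ⟨h1, h2⟩ | ⟨h1, h2⟩
        · exact hvx h1
        · exact hvy h1
      have hne := hv v hvx hvy a b ha haM hb hbM hab
      by_cases hka : κ s(v, a) = c
      · have hkb : ¬ κ s(v, b) = c := fun hh => hne (hka.trans hh.symm)
        have hs : (K c).neighborSet v = {m, a} := by
          ext z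
          simp only [SimpleGraph.mem_neighborSet, Set.mem_insert_iff, Set.mem_singleton_iff]
          constructor
          · intro hz
            rcases hall z ((hHG v z).1 hz.1).1 with h1 | h1 | h1
            · exact Or.inl h1
            · exact Or.inr h1
            · exfalso
              rw [h1] at hz
              rcases hz.2 with h2 | h2
              · exact hbM h2
              · exact hkb h2
          · rintro (h1 | h1)
            · rw [h1]; exact ⟨hmH, Or.inl hm⟩
            · rw [h1]; exact ⟨haH, Or.inr hka⟩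
        rw [hs]
        exact Set.ncard_pair hma
      · have hkb : κ s(v, b) = c := bool_aux _ _ _ hne hka
        have hs : (K c).neighborSet v = {m, b} := by
          ext z
          simp only [SimpleGraph.mem_neighborSet, Set.mem_insert_iff, Set.mem_singleton_iff]
          constructor
          · intro hz
            rcases hall z ((hHG v z).1 hz.1).1 with h1 | h1 | h1
            · exact Or.inl h1
            · exfalso
              rw [h1] at hz
              rcases hz.2 with h2 | h2
              · exact haM h2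
              · exact hka h2
            · exact Or.inr h1
          · rintro (h1 | h1)
            · rw [h1]; exact ⟨hmH, Or.inl hm⟩
            · rw [h1]; exact ⟨hbH, Or.inr hkb⟩
        rw [hs]
        exact Set.ncard_pair hmb
  -- the family and its colouring
  let F : Set H.Subgraph := {C | IsCircuit C ∧ ∃ c, ∀ a b, C.Adj a b → (K c).Adj a b}
  let col : H.Subgraph → Bool := fun C =>
    if ∀ a b, C.Adj a b → (K false).Adj a b then false else true
  have hcol : ∀ C ∈ F, ∀ a b, C.Adj a b → (K (col C)).Adj a b := by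
    intro C hC
    obtain ⟨_, c, hc⟩ := hC
    by_cases hf : ∀ a b, C.Adj a b → (K false).Adj a b
    · have : col C = false := if_pos hf
      rw [this]; exact hf
    · have : col C = true := if_neg hf
      rw [this]
      cases c
      · exact absurd hc hf
      · exact hc
  -- a circuit with all edges in `K c` has an edge outside `M` at each vertex
  have hnonM : ∀ C : H.Subgraph, IsCircuit C → ∀ u ∈ C.verts, ∃ a, C.Adj u a ∧ ¬ M.Adj u a := by
    intro C hC u hu
    obtain ⟨p, q, hpq, hs⟩ := Set.ncard_eq_two.mp (hC.2 u hu)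
    have hp : C.Adj u p := by
      have : p ∈ C.neighborSet u := by rw [hs]; simp
      exact this
    have hq : C.Adj u q := by
      have : q ∈ C.neighborSet u := by rw [hs]; simp
      exact this
    by_cases hMp : M.Adj u p
    · exact ⟨q, hq, fun hMq => hpq (hMuniq u p q hMp hMq)⟩
    · exact ⟨p, hp, hMp⟩
  -- a circuit lies in at most one of the two graphs
  have honly : ∀ C : H.Subgraph, IsCircuit C → ∀ u ∈ C.verts, ∀ c d,
      (∀ a b, C.Adj a b → (K c).Adj a b) → (∀ a b, C.Adj a b → (K d).Adj a b) → c = d := by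
    intro C hC u hu c d hc hd
    obtain ⟨a, ha, haM⟩ := hnonM C hC u hu
    rcases (hc u a ha).2 with h1 | h1
    · exact absurd h1 haM
    rcases (hd u a ha).2 with h2 | h2
    · exact absurd h2 haM
    rw [← h1, ← h2]
  refine ⟨F, col, ⟨fun C hC => hC.1, ?_⟩, ?_, ?_, ?_⟩
  · intro e
    induction e with
    | h u v =>
      intro he
      have huv : H.Adj u v := he
      by_cases hM : M.Adj u v
      · have hw : wt M s(u, v) = 2 := by
          unfold wt
          rw [if_pos]
          exact hM
        rw [hw]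
        have hKf : (K false).Adj u v := ⟨huv, Or.inl hM⟩
        have hKt : (K true).Adj u v := ⟨huv, Or.inl hM⟩
        have hcf := compOf_circuit H (K false) (hKH false) (hdeg false) u v hKf
        have hct := compOf_circuit H (K true) (hKH true) (hdeg true) u v hKt
        have hne : compOf H (K false) (hKH false) u ≠ compOf H (K true) (hKH true) u := by
          intro hh
          have := honly _ hcf u (Reachable.refl u) false true (fun a b hab => hab.1)
            (fun a b hab => by rw [hh] at hab; exact hab.1)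
          exact Bool.false_ne_true this
        have hs : {C | C ∈ F ∧ s(u, v) ∈ C.edgeSet} =
            {compOf H (K false) (hKH false) u, compOf H (K true) (hKH true) u} := by
          ext C
          simp only [Set.mem_ofPred_eq, Set.mem_insert_iff, Set.mem_singleton_iff,
            SimpleGraph.Subgraph.mem_edgeSet]
          constructor
          · rintro ⟨⟨hC, c, hc⟩, hCuv⟩
            have := eq_compOf H (K c) (hKH c) (hdeg c) C hC hc u (C.edge_vert hCuv)
            cases c
            · exact Or.inl this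
            · exact Or.inr this
          · rintro (h1 | h1)
            · rw [h1]
              exact ⟨⟨hcf, false, fun a b hab => hab.1⟩, hKf, Reachable.refl u⟩
            · rw [h1]
              exact ⟨⟨hct, true, fun a b hab => hab.1⟩, hKt, Reachable.refl u⟩
        rw [hs]
        exact Set.ncard_pair hne
      · have hw : wt M s(u, v) = 1 := by
          unfold wt
          rw [if_neg]
          exact hM
        rw [hw]
        have hKc : (K (κ s(u, v))).Adj u v := ⟨huv, Or.inr rfl⟩
        have hcc := compOf_circuit H (K (κ s(u, v))) (hKH _) (hdeg _) u v hKc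
        have hs : {C | C ∈ F ∧ s(u, v) ∈ C.edgeSet} =
            {compOf H (K (κ s(u, v))) (hKH _) u} := by
          ext C
          simp only [Set.mem_ofPred_eq, Set.mem_singleton_iff, SimpleGraph.Subgraph.mem_edgeSet]
          constructor
          · rintro ⟨⟨hC, c, hc⟩, hCuv⟩
            have h1 : κ s(u, v) = c := by
              rcases (hc u v hCuv).2 with h2 | h2
              · exact absurd h2 hM
              · exact h2
            subst h1
            exact eq_compOf H (K _) (hKH _) (hdeg _) C hC hc u (C.edge_vert hCuv)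
          · intro h1
            rw [h1]
            exact ⟨⟨hcc, _, fun a b hab => hab.1⟩, hKc, Reachable.refl u⟩
        rw [hs]
        exact Set.ncard_singleton _
  · intro C hC D hD hCD hdis hcc
    rw [Set.not_disjoint_iff] at hdis
    obtain ⟨w, hwC, hwD⟩ := hdis
    apply hCD
    have h1 := eq_compOf H (K (col C)) (hKH _) (hdeg _) C hC.1 (hcol C hC) w hwC
    have h2 := eq_compOf H (K (col D)) (hKH _) (hdeg _) D hD.1 (hcol D hD) w hwD
    have h3 := eq_compOf H (K (col C)) (hKH _) (hdeg _) D hD.1
      (by rw [hcc]; exact hcol D hD) w hwD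
    exact h1.trans h3.symm
  · intro C hC hxC
    obtain ⟨a, ha, haM⟩ := hnonM C hC.1 x hxC
    have h1 := hcol C hC x a ha
    rcases h1.2 with h2 | h2
    · exact absurd h2 haM
    · rw [← h2]
      exact hx a ((hHG x a).1 h1.1).1 haM
  · intro C hC hyC
    obtain ⟨a, ha, haM⟩ := hnonM C hC.1 y hyC
    have h1 := hcol C hC y a ha
    rcases h1.2 with h2 | h2
    · exact absurd h2 haM
    · rw [← h2]
      exact hy a ((hHG y a).1 h1.1).1 haM

/-- R6: both canonical covers exist -/
theorem fam [Finite V] (G : SimpleGraph V) (M C₁ C₂ : G.Subgraph)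
    (h : IsPermutationGraph G M C₁ C₂) (x y : V) (hxy : M.Adj x y) (hx : x ∈ C₁.verts)
    (hy : y ∈ C₂.verts) (β : Bool) (κ₁ κ₂ : Sym2 V → Bool)
    (h1x : ∀ a, C₁.Adj x a → κ₁ s(x, a) = false)
    (h1 : ∀ v ∈ C₁.verts, v ≠ x → ∀ a b, C₁.Adj v a → C₁.Adj v b → a ≠ b →
      κ₁ s(v, a) ≠ κ₁ s(v, b))
    (h2y : ∀ a, C₂.Adj y a → κ₂ s(y, a) = β)
    (h2 : ∀ v ∈ C₂.verts, v ≠ y → ∀ a b, C₂.Adj v a → C₂.Adj v b → a ≠ b →
      κ₂ s(v, a) ≠ κ₂ s(v, b)) :
    ∃ (F : Set (del G x y).Subgraph) (col : (del G x y).Subgraph → Bool),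
      IsFCC (del G x y) (wt M) F ∧ IsCol F x y β col := by
  classical
  have hd : ∀ v, v ∈ C₁.verts → v ∉ C₂.verts := fun v h3 h4 =>
    (Set.disjoint_left.1 h.disjoint) h3 h4
  have e1 : ∀ v a, v ∈ C₁.verts → G.Adj v a → ¬ M.Adj v a → C₁.Adj v a := by
    intro v a hv h3 h4
    rcases (h.union v a).1 ⟨h3, h4⟩ with h5 | h5
    · exact h5
    · exact absurd (C₂.edge_vert h5) (hd v hv)
  have e2 : ∀ v a, v ∈ C₂.verts → G.Adj v a → ¬ M.Adj v a → C₂.Adj v a := by
    intro v a hv h3 h4
    rcases (h.union v a).1 ⟨h3, h4⟩ with h5 | h5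
    · exact absurd hv (hd v (C₁.edge_vert h5))
    · exact h5
  have k1 : ∀ v a, C₁.Adj v a →
      (if s(v, a) ∈ C₁.edgeSet then κ₁ s(v, a) else κ₂ s(v, a)) = κ₁ s(v, a) :=
    fun v a h3 => if_pos h3
  have k2 : ∀ v a, C₂.Adj v a →
      (if s(v, a) ∈ C₁.edgeSet then κ₁ s(v, a) else κ₂ s(v, a)) = κ₂ s(v, a) := by
    intro v a h3
    refine if_neg fun h4 => ?_
    have h5 : C₁.Adj v a := h4
    exact hd v (C₁.edge_vert h5) (C₂.edge_vert h3)
  refine fam_aux G M C₁ C₂ h x y hxy β
    (fun e => if e ∈ C₁.edgeSet then κ₁ e else κ₂ e) ?_ ?_ ?_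
  · intro a ha haM
    have h3 := e1 x a hx ha haM
    exact (k1 x a h3).trans (h1x a h3)
  · intro a ha haM
    have h3 := e2 y a hy ha haM
    exact (k2 y a h3).trans (h2y a h3)
  · intro v hvx hvy a b ha haM hb hbM hab
    rcases (h.union v a).1 ⟨ha, haM⟩ with h3 | h3
    · have h4 := e1 v b (C₁.edge_vert h3) hb hbM
      show (if s(v, a) ∈ C₁.edgeSet then κ₁ s(v, a) else κ₂ s(v, a)) ≠
        (if s(v, b) ∈ C₁.edgeSet then κ₁ s(v, b) else κ₂ s(v, b))
      rw [k1 v a h3, k1 v b h4]
      exact h1 v (C₁.edge_vert h3) hvx a b h3 h4 hab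
    · have h4 := e2 v b (C₂.edge_vert h3) hb hbM
      show (if s(v, a) ∈ C₁.edgeSet then κ₁ s(v, a) else κ₂ s(v, a)) ≠
        (if s(v, b) ∈ C₁.edgeSet then κ₁ s(v, b) else κ₂ s(v, b))
      rw [k2 v a h3, k2 v b h4]
      exact h2 v (C₂.edge_vert h3) hvy a b h3 h4 hab

end Pool.Agent.H98.TC
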