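import Mathlib
import Pool.Agent.H98.TC.Defs

/-!
Two covers of a critical contra pair (MP_a46c6f_co): a circuit without one of its edges is connected,
and a member of a cover that does not separate `x` from `y` is removable.
-/

set_option autoImplicit false

namespace Pool.Agent.H98.TC

open SimpleGraph Pool.Agent.H5.Goddyn

variable {V : Type*}

/-- R1a: a circuit without one of its edges is connected -/
theorem circ_del [Finite V] {H : SimpleGraph V} (C : H.Subgraph) (hC : IsCircuit C) {u v : V}
    (huv : C.Adj u v) : (C.spanningCoe.deleteEdges {s(u, v)}).Reachable u v := by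
  have hcyc : C.spanningCoe.IsCycles := by
    intro z hz
    obtain ⟨z', hz'⟩ := hz
    have h1 : C.Adj z z' := hz'
    have h2 : z ∈ C.verts := C.edge_vert h1
    exact hC.2 z h2
  exact hcyc.reachable_deleteEdges (show C.spanningCoe.Adj u v from huv)

/-- at every vertex the new weight has even sum, hence evenly many odd edges -/
theorem even_odd_edges [Finite V] (G : SimpleGraph V) (M C₁ C₂ : G.Subgraph)
    (h : IsPermutationGraph G M C₁ C₂) (C : G.Subgraph)
    (hC : ∀ v ∈ C.verts, (C.neighborSet v).ncard = 2) (w₁ : Sym2 V → ℕ)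
    (v : V)
    (hw1 : ∀ u, G.Adj v u → C.Adj v u → wt M s(v, u) = w₁ s(v, u) + 1)
    (hw2 : ∀ u, G.Adj v u → ¬ C.Adj v u → wt M s(v, u) = w₁ s(v, u)) :
    Even {u | G.Adj v u ∧ Odd (w₁ s(v, u))}.ncard := by
  classical
  have hfin : (G.neighborSet v).Finite := Set.toFinite _
  set N : Finset V := hfin.toFinset with hN
  have hNm : ∀ u, u ∈ N ↔ G.Adj v u := by
    intro u; simp [hN]
  have hNc : N.card = 3 := by
    rw [← h.cubic v, Set.ncard_eq_toFinset_card _ hfin]
  have hset : {u | G.Adj v u ∧ Odd (w₁ s(v, u))} = ((N.filter (fun u => Odd (w₁ s(v, u))) :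
      Finset V) : Set V) := by
    ext u; simp [hNm]
  rw [hset, Set.ncard_coe_finset, ← Finset.even_sum_iff_even_card_odd]
  -- the sum of the weights
  obtain ⟨m, hm, hmu⟩ := (Subgraph.isPerfectMatching_iff.1 h.perfect) v
  have hmN : m ∈ N := (hNm m).2 (M.adj_sub hm)
  have hsum : ∑ u ∈ N, wt M s(v, u) = 4 := by
    have h1 : ∀ u ∈ N, wt M s(v, u) = 1 + (if u = m then 1 else 0) := by
      intro u hu
      unfold wt
      by_cases hum : u = m
      · subst hum
        rw [if_pos (show s(v, u) ∈ M.edgeSet from hm), if_pos rfl]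
      · rw [if_neg (fun hh : s(v, u) ∈ M.edgeSet => hum (hmu u hh)), if_neg hum]
    rw [Finset.sum_congr rfl h1, Finset.sum_add_distrib, Finset.sum_ite_eq' N m]
    simp [hNc, hmN]
  have hsum2 : ∑ u ∈ N, wt M s(v, u) = ∑ u ∈ N, w₁ s(v, u) +
      (N.filter (fun u => C.Adj v u)).card := by
    rw [Finset.card_filter, ← Finset.sum_add_distrib]
    refine Finset.sum_congr rfl fun u hu => ?_
    by_cases hcu : C.Adj v u
    · rw [if_pos hcu, hw1 u ((hNm u).1 hu) hcu]
    · rw [if_neg hcu, hw2 u ((hNm u).1 hu) hcu]; simp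
  have hcard : (N.filter (fun u => C.Adj v u)).card = 0 ∨
      (N.filter (fun u => C.Adj v u)).card = 2 := by
    have hs : ((N.filter (fun u => C.Adj v u) : Finset V) : Set V) = C.neighborSet v := by
      ext u
      simp only [Finset.coe_filter, Set.mem_setOf_eq, Subgraph.mem_neighborSet, hNm]
      exact ⟨fun hh => hh.2, fun hh => ⟨C.adj_sub hh, hh⟩⟩
    rw [← Set.ncard_coe_finset, hs]
    by_cases hv : v ∈ C.verts
    · right; exact hC v hv
    · left
      have : C.neighborSet v = ∅ := by
        ext u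
        simp only [Subgraph.mem_neighborSet, Set.mem_empty_iff_false, iff_false]
        exact fun hh => hv (C.edge_vert hh)
      rw [this, Set.ncard_empty]
  rw [hsum] at hsum2
  rcases hcard with hc | hc <;> rw [hc] at hsum2
  · exact ⟨2, by omega⟩
  · exact ⟨1, by omega⟩

/-- R1: a member that does not separate `x` from `y` is removable -/
theorem sep [Finite V] (G : SimpleGraph V) (M C₁ C₂ : G.Subgraph) (h : IsPermutationGraph G M C₁ C₂)
    (x y : V) (hxy : M.Adj x y) (F : Set (del G x y).Subgraph) (hF : IsFCC (del G x y) (wt M) F)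
    (A : (del G x y).Subgraph) (hA : A ∈ F) (hx : x ∉ A.verts) (hy : y ∉ A.verts)
    (hr : (others F A).Reachable x y) : ∃ C : G.Subgraph, Removable G (wt M) C := by
  classical
  have hle : del G x y ≤ G := G.deleteEdges_le _
  -- the circuit as a subgraph of `G`
  let C : G.Subgraph :=
    { verts := A.verts
      Adj := A.Adj
      adj_sub := fun hh => hle (A.adj_sub hh)
      edge_vert := fun hh => A.edge_vert hh
      symm := A.symm }
  have hCA : ∀ u v, C.Adj u v ↔ A.Adj u v := fun u v => Iff.rfl
  have hAc : IsCircuit A := hF.1 A hA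
  have hCc : IsCircuit C := by
    refine ⟨?_, fun v hv => hAc.2 v hv⟩
    rw [Subgraph.connected_iff']
    have hA' : A.coe.Connected := Subgraph.connected_iff'.1 hAc.1
    exact hA'
  let w₁ : Sym2 V → ℕ := fun e => wt M e - if e ∈ C.edgeSet then 1 else 0
  have hwt1 : ∀ e, 1 ≤ wt M e := by
    intro e; unfold wt; split_ifs <;> omega
  have hw : ∀ e, wt M e = w₁ e + if e ∈ C.edgeSet then 1 else 0 := by
    intro e
    have := hwt1 e
    show wt M e = (wt M e - if e ∈ C.edgeSet then 1 else 0) + if e ∈ C.edgeSet then 1 else 0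
    split_ifs <;> omega
  -- edges of other members have positive new weight
  have hpos : ∀ D ∈ F, D ≠ A → ∀ e, e ∈ D.edgeSet → 0 < w₁ e := by
    intro D hD hDA e he
    have heH : e ∈ (del G x y).edgeSet := D.edgeSet_subset he
    have hn := hF.2 e heH
    have h1 := hw e
    by_cases heC : e ∈ C.edgeSet
    · rw [if_pos heC] at h1
      have heA : e ∈ A.edgeSet := by
        induction e using Sym2.ind with
        | _ a b => exact heC
      have hfin : {D' | D' ∈ F ∧ e ∈ D'.edgeSet}.Finite :=
        Set.finite_of_ncard_ne_zero (by have := hwt1 e; omega)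
      have h2 : 2 ≤ {D' | D' ∈ F ∧ e ∈ D'.edgeSet}.ncard := by
        rw [← Set.ncard_pair hDA]
        refine Set.ncard_le_ncard ?_ hfin
        rintro D' (rfl | rfl)
        · exact ⟨hD, he⟩
        · exact ⟨hA, heA⟩
      omega
    · rw [if_neg heC] at h1
      have := hwt1 e
      omega
  -- an edge of `G - xy` of positive new weight lies in another member
  have hex : ∀ e ∈ (del G x y).edgeSet, 0 < w₁ e → ∃ D ∈ F, D ≠ A ∧ e ∈ D.edgeSet := by
    intro e heH he
    have hn := hF.2 e heH
    have h1 := hw e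
    by_cases heC : e ∈ C.edgeSet
    · rw [if_pos heC] at h1
      have h2 : 1 < {D' | D' ∈ F ∧ e ∈ D'.edgeSet}.ncard := by omega
      obtain ⟨D, hD, hDA⟩ := Set.exists_ne_of_one_lt_ncard h2 A
      exact ⟨D, hD.1, hDA, hD.2⟩
    · have h2 : {D' | D' ∈ F ∧ e ∈ D'.edgeSet}.ncard ≠ 0 := by
        have := hwt1 e; omega
      obtain ⟨D, hD⟩ := Set.nonempty_of_ncard_ne_zero h2
      refine ⟨D, hD.1, ?_, hD.2⟩
      rintro rfl
      apply heC
      have := hD.2
      induction e using Sym2.ind with
      | _ a b => exact this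
  have hsupp : ∀ u v, (support G w₁).Adj u v ↔ G.Adj u v ∧ 0 < w₁ s(u, v) := by
    intro u v
    simp only [support, fromEdgeSet_adj, Set.mem_setOf_eq, mem_edgeSet, ne_eq]
    constructor
    · rintro ⟨⟨h1, h2⟩, -⟩; exact ⟨h1, h2⟩
    · rintro ⟨h1, h2⟩; exact ⟨⟨h1, h2⟩, h1.ne⟩
  have hsub : ∀ D ∈ F, D ≠ A → D.spanningCoe ≤ support G w₁ := by
    intro D hD hDA u v huv
    have huv' : D.Adj u v := huv
    exact (hsupp u v).2 ⟨hle (D.adj_sub huv'), hpos D hD hDA _ huv'⟩
  refine ⟨C, hCc, w₁, fun e _ => hw e, ?_, ?_⟩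
  · -- eulerian
    intro v
    have hset : {u | (support G w₁).Adj v u ∧ Odd (w₁ s(v, u))} =
        {u | G.Adj v u ∧ Odd (w₁ s(v, u))} := by
      ext u
      simp only [Set.mem_setOf_eq, hsupp]
      constructor
      · rintro ⟨⟨h1, -⟩, h2⟩; exact ⟨h1, h2⟩
      · rintro ⟨h1, h2⟩; exact ⟨⟨h1, h2.pos⟩, h2⟩
    rw [hset]
    refine even_odd_edges G M C₁ C₂ h C hCc.2 w₁ v ?_ ?_
    · intro u _ hcu
      rw [hw s(v, u), if_pos (show s(v, u) ∈ C.edgeSet from hcu)]
    · intro u _ hcu
      rw [hw s(v, u), if_neg (fun hh : s(v, u) ∈ C.edgeSet => hcu hh), Nat.add_zero]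
  · -- bridgeless
    intro e he
    induction e using Sym2.ind with
    | _ a b =>
      rw [isBridge_iff, not_not]
      have hab := (hsupp a b).1 he
      by_cases hexy : s(a, b) = s(x, y)
      · -- the edge `xy`
        have hmono : others F A ≤ (support G w₁).deleteEdges {s(a, b)} := by
          rintro u v ⟨D, hD, hDA, huv⟩
          rw [deleteEdges_adj]
          refine ⟨hsub D hD hDA huv, ?_⟩
          intro hh
          have h1 := D.adj_sub huv
          rw [deleteEdges_adj] at h1
          apply h1.2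
          rw [Set.mem_singleton_iff] at hh ⊢
          rw [hh, hexy]
        have h2 : ((support G w₁).deleteEdges {s(a, b)}).Reachable x y := hr.mono hmono
        rcases Sym2.eq_iff.1 hexy with ⟨rfl, rfl⟩ | ⟨rfl, rfl⟩
        · exact h2
        · exact h2.symm
      · have heH : s(a, b) ∈ (del G x y).edgeSet := by
          rw [mem_edgeSet, deleteEdges_adj]
          exact ⟨hab.1, hexy⟩
        obtain ⟨D, hD, hDA, hDe⟩ := hex _ heH hab.2
        have h1 := circ_del D (hF.1 D hD) (show D.Adj a b from hDe)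
        refine h1.mono ?_
        exact deleteEdges_mono (hsub D hD hDA)

end Pool.Agent.H98.TC
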