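import Mathlib
import Pool.Agent.H98.TC.Defs
import Pool.Agent.H98.TC.Conn
import Pool.Agent.H5.Goddyn.Perm
import Pool.Agent.Results.MP_a46c6f_co.ParityFCC

set_option autoImplicit false

/-!
Alternate colourings of odd circuits (MP_a46c6f_co).
-/

namespace Pool.Agent.H98.TC

open SimpleGraph Pool.Agent.H5.Goddyn

variable {V : Type*}

/-- enumeration of a circuit from a given vertex -/
theorem enum4 [Finite V] {G : SimpleGraph V} {C : G.Subgraph} (hC : IsCircuit C) {x : V}
    (hx : x ∈ C.verts) : ∃ (n : ℕ) (d : ℕ → V), 3 ≤ n ∧ C.verts.ncard = n ∧ d 0 = x ∧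
      (∀ i, d (i + n) = d i) ∧ (∀ i < n, ∀ j < n, d i = d j → i = j) ∧
      (∀ v ∈ C.verts, ∃ i < n, d i = v) ∧
      ∀ i t, C.Adj (d (i + 1)) t ↔ t = d i ∨ t = d (i + 2) := by
  obtain ⟨n, c, hn, hper, hinj, hv, hadj⟩ := exists_enum hC
  obtain ⟨i₀, hi₀, hci⟩ := (hv x).1 hx
  have hmod : ∀ a, c (a % n) = c a := fun a =>
    Function.Periodic.map_mod_nat (f := c) (a := n) hper a
  have hpos : 0 < n := by omega
  refine ⟨n, fun i => c (i + i₀), hn, ?_, by simpa using hci, ?_, ?_, ?_, ?_⟩
  · have h1 : C.verts = c '' {i | i < n} := by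
      ext v
      rw [hv v]
      constructor
      · rintro ⟨i, hi, h2⟩
        exact ⟨i, hi, h2⟩
      · rintro ⟨i, hi, h2⟩
        exact ⟨i, hi, h2⟩
    rw [h1, Set.ncard_image_of_injOn hinj]
    have h2 : {i : ℕ | i < n} = (Finset.range n : Set ℕ) := by
      ext i
      simp
    rw [h2, Set.ncard_coe_finset, Finset.card_range]
  · intro i
    show c (i + n + i₀) = c (i + i₀)
    rw [show i + n + i₀ = i + i₀ + n by ring]
    exact hper _
  · intro i hi j hj hij
    have h1 : c ((i + i₀) % n) = c ((j + i₀) % n) := by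
      rw [hmod, hmod]
      exact hij
    have h2 := hinj (Nat.mod_lt _ hpos) (Nat.mod_lt _ hpos) h1
    have h3 : i ≡ j [MOD n] := Nat.ModEq.add_right_cancel' i₀ h2
    have h4 : i % n = j % n := h3
    rwa [Nat.mod_eq_of_lt hi, Nat.mod_eq_of_lt hj] at h4
  · intro v hvC
    obtain ⟨k, hk, hkv⟩ := (hv v).1 hvC
    refine ⟨(k + n - i₀) % n, Nat.mod_lt _ hpos, ?_⟩
    show c ((k + n - i₀) % n + i₀) = v
    rw [← hmod, Nat.mod_add_mod, show k + n - i₀ + i₀ = k + n by omega, Nat.add_mod_right,
      Nat.mod_eq_of_lt hk]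
    exact hkv
  · intro i t
    show C.Adj (c (i + 1 + i₀)) t ↔ t = c (i + i₀) ∨ t = c (i + 2 + i₀)
    rw [show i + 1 + i₀ = i + i₀ + 1 by ring, show i + 2 + i₀ = i + i₀ + 2 by ring]
    exact hadj _ _

/-- R5a: alternate colouring of the edges of an odd circuit, starting at `x` -/
theorem alt [Finite V] {G : SimpleGraph V} (C : G.Subgraph) (hC : IsCircuit C)
    (hodd : Odd C.verts.ncard) (x : V) (hx : x ∈ C.verts) (β : Bool) :
    ∃ κ : Sym2 V → Bool, (∀ a, C.Adj x a → κ s(x, a) = β) ∧
      ∀ v ∈ C.verts, v ≠ x → ∀ a b, C.Adj v a → C.Adj v b → a ≠ b → κ s(v, a) ≠ κ s(v, b) := by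
  classical
  obtain ⟨n, d, hn, hcard, h0, hper, hinj, hv, hadj⟩ := enum4 hC hx
  rw [hcard] at hodd
  have hdn : d n = d 0 := by
    have := hper 0
    rwa [zero_add] at this
  have hedge : ∀ i < n, ∀ j < n, s(d i, d (i + 1)) = s(d j, d (j + 1)) → i = j := by
    intro i hi j hj hij
    rw [Sym2.eq_iff] at hij
    rcases hij with ⟨h1, -⟩ | ⟨h1, h2⟩
    · exact hinj i hi j hj h1
    · exfalso
      rcases Nat.lt_or_ge (j + 1) n with hjn | hjn
      · have h3 := hinj i hi (j + 1) hjn h1
        subst h3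
        rcases Nat.lt_or_ge (j + 1 + 1) n with h4 | h4
        · have := hinj _ h4 j hj h2
          omega
        · have h5 : j + 1 + 1 = n := by omega
          rw [h5, hdn] at h2
          have := hinj 0 (by omega) j hj h2
          omega
      · have h3 : j + 1 = n := by omega
        rw [h3, hdn] at h1
        have h4 := hinj i hi 0 (by omega) h1
        subst h4
        have := hinj (0 + 1) (by omega) j hj h2
        omega
  set κ : Sym2 V → Bool := fun e =>
    if ∃ j, j < n ∧ j % 2 = 0 ∧ e = s(d j, d (j + 1)) then β else !β with hκ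
  have hk : ∀ i < n, κ s(d i, d (i + 1)) = if i % 2 = 0 then β else !β := by
    intro i hi
    simp only [hκ]
    by_cases h2 : i % 2 = 0
    · rw [if_pos ⟨i, hi, h2, rfl⟩, if_pos h2]
    · rw [if_neg h2, if_neg]
      rintro ⟨j, hj, hj2, he⟩
      have := hedge i hi j hj he
      subst this
      exact h2 hj2
  refine ⟨κ, ?_, ?_⟩
  · intro a ha
    have h1 : x = d (n - 1 + 1) := by
      rw [Nat.sub_add_cancel (by omega), hdn, h0]
    have ha' := ha
    rw [h1, hadj] at ha'
    rcases ha' with h2 | h2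
    · rw [h2, h1, Sym2.eq_swap, hk (n - 1) (by omega), if_pos]
      obtain ⟨r, hr⟩ := hodd
      omega
    · have h3 : n - 1 + 2 = 1 + n := by omega
      rw [h3, hper] at h2
      rw [h2, ← h0]
      have := hk 0 (by omega)
      rw [if_pos rfl] at this
      exact this
  · intro v hvC hvx a b ha hb hab
    obtain ⟨i, hi, hiv⟩ := hv v hvC
    have hi0 : i ≠ 0 := by
      rintro rfl
      exact hvx (hiv.symm.trans h0)
    obtain ⟨k, rfl⟩ := Nat.exists_eq_succ_of_ne_zero hi0
    subst hiv
    have e1 : κ s(d (k + 1), d k) = if k % 2 = 0 then β else !β := by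
      rw [Sym2.eq_swap]
      exact hk k (by omega)
    have e2 : κ s(d (k + 1), d (k + 2)) = if (k + 1) % 2 = 0 then β else !β := hk (k + 1) hi
    have e3 : κ s(d (k + 1), d k) ≠ κ s(d (k + 1), d (k + 2)) := by
      rw [e1, e2]
      rcases Nat.mod_two_eq_zero_or_one k with h2 | h2
      · rw [if_pos h2, if_neg (by omega)]
        cases β <;> simp
      · rw [if_neg (by omega), if_pos (by omega)]
        cases β <;> simp
    have ha' := (hadj k a).1 ha
    have hb' := (hadj k b).1 hb
    rcases ha' with rfl | rfl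
    · rcases hb' with rfl | rfl
      · exact absurd rfl hab
      · exact e3
    · rcases hb' with rfl | rfl
      · exact e3.symm
      · exact absurd rfl hab

/-- R5b: the circuits are odd if there is no faithful circuit cover -/
theorem odd_of_no [Finite V] (G : SimpleGraph V) (M C₁ C₂ : G.Subgraph)
    (h : IsPermutationGraph G M C₁ C₂) (hno : ¬ HasFaithfulCircuitCover G (wt M)) :
    Odd C₁.verts.ncard ∧ Odd C₂.verts.ncard := by
  classical
  have h8 : Nat.card V % 8 = 2 := by
    by_contra hcon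
    apply hno
    exact Pool.Agent.Results.MP_a46c6f_co.ParityFCC.result G M C₁ C₂
      ⟨h.cubic, h.perfect, h.circuit₁, h.circuit₂, h.disjoint, h.union, h.chordless₁,
        h.chordless₂⟩ hcon
  have hM := Subgraph.isPerfectMatching_iff.1 h.perfect
  choose f hf hfu using hM
  have hinj : Function.Injective f := by
    intro u v huv
    have h1 := hfu (f u) u (hf u).symm
    have h2 := hfu (f u) v (by rw [huv]; exact (hf v).symm)
    exact h1.trans h2.symm
  have him : f '' C₁.verts = C₂.verts := by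
    ext v
    constructor
    · rintro ⟨u, hu, rfl⟩
      exact other' h (hf u) hu
    · intro hv
      refine ⟨f v, other' (swap' h) (hf v) hv, ?_⟩
      exact (hfu (f v) v (hf v).symm).symm
  have hcard : C₂.verts.ncard = C₁.verts.ncard := by
    rw [← him]
    exact Set.ncard_image_of_injective _ hinj
  have hun : C₁.verts ∪ C₂.verts = Set.univ := by
    ext v
    simp only [Set.mem_union, Set.mem_univ, iff_true]
    exact cover' h v
  have hsum : C₁.verts.ncard + C₂.verts.ncard = Nat.card V := by
    rw [← Set.ncard_union_eq h.disjoint (Set.toFinite _) (Set.toFinite _), hun, Set.ncard_univ]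
  constructor
  · rw [Nat.odd_iff]
    omega
  · rw [Nat.odd_iff]
    omega

end Pool.Agent.H98.TC
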