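import Mathlib
import Pool.Agent.H98.TC.Defs

/-!
The members of a faithful circuit cover of `(G - e, w)` in a critical contra pair form a chain
(MP_a46c6f_co).
-/

set_option autoImplicit false

namespace Pool.Agent.H98.TC

open SimpleGraph Pool.Agent.H5.Goddyn

variable {V : Type*}

/-- Two vertices of a connected member other than `A` are connected in `others F A`. -/
theorem others_reach {H : SimpleGraph V} (F : Set H.Subgraph) (A C : H.Subgraph) (hC : C ∈ F)
    (hCA : C ≠ A) (hc : C.Connected) {u v : V} (hu : u ∈ C.verts) (hv : v ∈ C.verts) :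
    (others F A).Reachable u v := by
  have h1 : C.coe.Reachable ⟨u, hu⟩ ⟨v, hv⟩ := hc.coe.preconnected _ _
  let f : C.coe →g others F A :=
    { toFun := fun z => z.1
      map_rel' := fun {a b} hab => ⟨C, hC, hCA, hab⟩ }
  exact h1.map f

/-- The intersection graph of the members. -/
def meet {H : SimpleGraph V} (F : Set H.Subgraph) : SimpleGraph F where
  Adj C D := C ≠ D ∧ ¬ Disjoint C.1.verts D.1.verts
  symm := ⟨fun _ _ ⟨h1, h2⟩ => ⟨h1.symm, fun h => h2 h.symm⟩⟩
  loopless := ⟨fun _ ⟨h1, _⟩ => h1 rfl⟩

/-- R3: the members form a chain -/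
theorem chain [Finite V] {H : SimpleGraph V} (F : Set H.Subgraph) (x y : V)
    (hconn : H.Reachable x y) (hcirc : ∀ C ∈ F, C.Connected)
    (hcov : ∀ u v, H.Adj u v → ∃ C ∈ F, C.Adj u v)
    (hx : ∃ A ∈ F, x ∈ A.verts ∧ ∀ C ∈ F, x ∈ C.verts → C = A)
    (hy : ∃ A ∈ F, y ∈ A.verts ∧ ∀ C ∈ F, y ∈ C.verts → C = A)
    (htwo : ∀ A ∈ F, ∃ B ∈ F, B ≠ A)
    (hsep : ∀ A ∈ F, x ∉ A.verts → y ∉ A.verts → ¬ (others F A).Reachable x y) :
    ∃ (m : ℕ) (D : ℕ → H.Subgraph), 1 ≤ m ∧ Set.InjOn D {i | i ≤ m} ∧ F = D '' {i | i ≤ m} ∧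
      x ∈ (D 0).verts ∧ y ∈ (D m).verts ∧
      ∀ i ≤ m, ∀ j ≤ m, i < j → (¬ Disjoint (D i).verts (D j).verts ↔ j = i + 1) := by
  classical
  obtain ⟨A, hA, hxA, hxu⟩ := hx
  obtain ⟨B, hB, hyB, hyu⟩ := hy
  -- the members through `x` and `y` are different
  have hAB : A ≠ B := by
    rintro rfl
    obtain ⟨C, hC, hCA⟩ := htwo A hA
    exact hsep C hC (fun h => hCA (hxu C hC h)) (fun h => hCA (hyu C hC h))
      (others_reach F C A hA (Ne.symm hCA) (hcirc A hA) hxA hyB)
  -- they are connected in the intersection graph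
  have key : ∀ {u v : V} (p : H.Walk u v),
      (∀ C (hC : C ∈ F), u ∈ C.verts → (meet F).Reachable ⟨A, hA⟩ ⟨C, hC⟩) →
      ∀ C (hC : C ∈ F), v ∈ C.verts → (meet F).Reachable ⟨A, hA⟩ ⟨C, hC⟩ := by
    intro u v p
    induction p with
    | nil => exact fun h => h
    | @cons a b c hab q ih =>
      intro h
      apply ih
      intro C hC hbC
      obtain ⟨E, hE, hEab⟩ := hcov _ _ hab
      have h1 := h E hE hEab.fst_mem
      by_cases hEC : E = C
      · subst hEC
        exact h1
      · refine h1.trans (Adj.reachable ⟨fun h => hEC (congrArg Subtype.val h), ?_⟩)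
        exact Set.not_disjoint_iff.2 ⟨b, hEab.snd_mem, hbC⟩
  have hreach : (meet F).Reachable ⟨A, hA⟩ ⟨B, hB⟩ := by
    obtain ⟨p⟩ := hconn
    refine key p (fun C hC hxC => ?_) B hB hyB
    have := hxu C hC hxC
    subst this
    exact Reachable.refl _
  obtain ⟨p, hp⟩ := hreach.exists_walk_length_eq_dist
  -- shortcuts do not exist
  have hshort : ∀ (i j : ℕ) (q : (meet F).Walk (p.getVert i) (p.getVert j)), i ≤ p.length →
      j ≤ p.length → j ≤ i + q.length := by
    intro i j q hi hj
    have h1 := dist_le ((p.take i).append (q.append (p.drop j)))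
    rw [Walk.length_append, Walk.length_append, Walk.take_length, Walk.drop_length, ← hp] at h1
    omega
  have hinj : ∀ i ≤ p.length, ∀ j ≤ p.length, p.getVert i = p.getVert j → j ≤ i := by
    intro i hi j hj hij
    have := hshort i j (Walk.nil.copy rfl hij) hi hj
    simpa using this
  have h0 : (p.getVert 0 : F).1 = A := by simp
  have hm : (p.getVert p.length : F).1 = B := by simp
  refine ⟨p.length, fun i => (p.getVert i).1, ?_, ?_, ?_, ?_, ?_, ?_⟩
  · by_contra hcon
    have h2 : p.length = 0 := by omega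
    exact hAB (h0.symm.trans ((congrArg (fun i => (p.getVert i).1) h2.symm).trans hm))
  · intro i hi j hj hij
    have h2 : p.getVert i = p.getVert j := Subtype.ext hij
    exact le_antisymm (hinj j hj i hi h2.symm) (hinj i hi j hj h2)
  · apply Set.Subset.antisymm
    · intro C hC
      by_contra hcon
      have hne : ∀ i ≤ p.length, (p.getVert i).1 ≠ C := fun i hi h => hcon ⟨i, hi, h⟩
      have hxC : x ∉ C.verts := fun h => hne 0 (Nat.zero_le _) (by rw [h0]; exact (hxu C hC h).symm)
      have hyC : y ∉ C.verts := fun h => hne _ le_rfl (by rw [hm]; exact (hyu C hC h).symm)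
      apply hsep C hC hxC hyC
      have hall : ∀ i ≤ p.length, ∀ u ∈ (p.getVert i).1.verts, (others F C).Reachable x u := by
        intro i
        induction i with
        | zero =>
          intro _ u hu
          exact others_reach F C _ (p.getVert 0).2 (hne 0 (Nat.zero_le _))
            (hcirc _ (p.getVert 0).2) (by rw [h0]; exact hxA) hu
        | succ i ih =>
          intro hi u hu
          have hadj : (meet F).Adj (p.getVert i) (p.getVert (i + 1)) :=
            p.adj_getVert_succ (by omega)
          obtain ⟨z, hz1, hz2⟩ := Set.not_disjoint_iff.1 hadj.2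
          exact (ih (by omega) z hz1).trans (others_reach F C _ (p.getVert (i + 1)).2
            (hne _ hi) (hcirc _ (p.getVert (i + 1)).2) hz2 hu)
      exact hall p.length le_rfl y (by rw [hm]; exact hyB)
    · rintro C ⟨i, _, rfl⟩
      exact (p.getVert i).2
  · show x ∈ (p.getVert 0).1.verts
    rw [h0]
    exact hxA
  · show y ∈ (p.getVert p.length).1.verts
    rw [hm]
    exact hyB
  · intro i hi j hj hij
    constructor
    · intro hmeet
      have hne : p.getVert i ≠ p.getVert j := fun h => by
        have := hinj i hi j hj h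
        omega
      have hadj : (meet F).Adj (p.getVert i) (p.getVert j) := ⟨hne, hmeet⟩
      have := hshort i j hadj.toWalk hi hj
      simp at this
      omega
    · rintro rfl
      exact (p.adj_getVert_succ (i := i) (by omega)).2

end Pool.Agent.H98.TC
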