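import Mathlib
import Pool.Agent.H98.TC.Defs
import Pool.Agent.H98.TC.Conn
import Pool.Agent.H98.TC.Local

set_option autoImplicit false

/-!
Two faithful circuit covers of `(G - e, w)`: a cover with a colouring is determined by the colour
at `y`.
-/

namespace Pool.Agent.H98.TC

open SimpleGraph Pool.Agent.H5.Goddyn

variable {V : Type*}

theorem del_adj4 {G : SimpleGraph V} {x y u v : V} (hx : u ≠ x) (hy : u ≠ y) (h : G.Adj u v) :
    (del G x y).Adj u v := by
  rw [deleteEdges_adj]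
  refine ⟨h, ?_⟩
  intro he
  rw [Set.mem_singleton_iff, Sym2.eq_iff] at he
  rcases he with ⟨h1, _⟩ | ⟨h1, _⟩
  · exact hx h1
  · exact hy h1

/-- an edge of `G - xy` outside `M` lies in a member -/
theorem ex_mem4 {G : SimpleGraph V} {M : G.Subgraph} {x y : V} {F : Set (del G x y).Subgraph}
    (hF : IsFCC (del G x y) (wt M) F) {u v : V} (h : (del G x y).Adj u v) (hM : ¬ M.Adj u v) :
    ∃ C ∈ F, C.Adj u v := by
  have h1 := hF.2 s(u, v) h
  have h2 : wt M s(u, v) = 1 := by
    rw [wt, if_neg]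
    exact hM
  rw [h2, Set.ncard_eq_one] at h1
  obtain ⟨C, hC⟩ := h1
  have h3 : C ∈ {C | C ∈ F ∧ s(u, v) ∈ C.edgeSet} := by rw [hC]; rfl
  exact ⟨C, h3.1, h3.2⟩

/-- two members with different edges outside `M` at a vertex have different colours -/
theorem two4 [Finite V] {G : SimpleGraph V} {M C₁ C₂ : G.Subgraph}
    (h : IsPermutationGraph G M C₁ C₂) {x y : V} (hxy : M.Adj x y) {β : Bool}
    {F : Set (del G x y).Subgraph} (hF : IsFCC (del G x y) (wt M) F)
    {col : (del G x y).Subgraph → Bool} (hc : IsCol F x y β col) {w p q : V} (hwx : w ≠ x)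
    (hwy : w ≠ y) {C D : (del G x y).Subgraph} (hC : C ∈ F) (hD : D ∈ F) (hCp : C.Adj w p)
    (hDq : D.Adj w q) (hp : ¬ M.Adj w p) (hq : ¬ M.Adj w q) (hpq : p ≠ q) : col C ≠ col D := by
  obtain ⟨m, a, b, hm, ha, hna, hb, hnb, hab, hcov, A, hA, B, hB, hAB, hNA, hNB, hall⟩ :=
    local2 G M C₁ C₂ h x y hxy F hF w hwx hwy
  have key : ∀ E ∈ F, ∀ r s : V, E.Adj w r → E.Adj w s → ¬ M.Adj w r → ¬ M.Adj w s → r = s := by
    intro E hE r s hr hs hnr hns
    rcases hall E hE (E.edge_vert hr) with rfl | rfl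
    · have h1 : r ∈ E.neighborSet w := hr
      have h2 : s ∈ E.neighborSet w := hs
      rw [hNA] at h1 h2
      rcases h1 with rfl | h1
      · exact absurd hm hnr
      rcases h2 with rfl | h2
      · exact absurd hm hns
      rw [Set.mem_singleton_iff] at h1 h2
      rw [h1, h2]
    · have h1 : r ∈ E.neighborSet w := hr
      have h2 : s ∈ E.neighborSet w := hs
      rw [hNB] at h1 h2
      rcases h1 with rfl | h1
      · exact absurd hm hnr
      rcases h2 with rfl | h2
      · exact absurd hm hns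
      rw [Set.mem_singleton_iff] at h1 h2
      rw [h1, h2]
  refine hc.1 C hC D hD ?_ ?_
  · rintro rfl
    exact hpq (key C hC p q hCp hDq hp hq)
  · rw [Set.not_disjoint_iff]
    exact ⟨w, C.edge_vert hCp, D.edge_vert hDq⟩

/-- the colours of two covers agree along a circuit -/
theorem agree4 [Finite V] {G : SimpleGraph V} {M C₁ C₂ : G.Subgraph}
    (h : IsPermutationGraph G M C₁ C₂) {x y : V} (hxy : M.Adj x y) {β : Bool}
    {F F' : Set (del G x y).Subgraph} (hF : IsFCC (del G x y) (wt M) F)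
    (hF' : IsFCC (del G x y) (wt M) F') {col col' : (del G x y).Subgraph → Bool}
    (hc : IsCol F x y β col) (hc' : IsCol F' x y β col') (E : G.Subgraph) (hE : E.Connected)
    (hEM : ∀ u v, E.Adj u v → ¬ M.Adj u v) {z : V} (hz : z ∈ E.verts)
    (hzz : ∀ w ∈ E.verts, w ≠ z → w ≠ x ∧ w ≠ y)
    (hS : ∀ C ∈ F, z ∈ C.verts → ∀ C' ∈ F', z ∈ C'.verts → col C = col' C') :
    ∀ v ∈ E.verts, ∀ a, E.Adj v a → ∀ C ∈ F, C.Adj v a → ∀ C' ∈ F', C'.Adj v a →
      col C = col' C' := by
  have step : ∀ v w, E.Adj v w → (∀ a, E.Adj v a → ∀ C ∈ F, C.Adj v a → ∀ C' ∈ F', C'.Adj v a →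
      col C = col' C') → ∀ a, E.Adj w a → ∀ C ∈ F, C.Adj w a → ∀ C' ∈ F', C'.Adj w a →
      col C = col' C' := by
    intro v w hvw hv a hwa C hC hCa C' hC' hCa'
    by_cases hwz : w = z
    · subst hwz
      exact hS C hC (C.edge_vert hCa) C' hC' (C'.edge_vert hCa')
    obtain ⟨hwx, hwy⟩ := hzz w (E.edge_vert hwa) hwz
    by_cases hav : a = v
    · subst hav
      exact hv w hvw C hC hCa.symm C' hC' hCa'.symm
    have hwv : (del G x y).Adj w v := del_adj4 hwx hwy (E.adj_sub hvw.symm)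
    have hnM : ¬ M.Adj w v := hEM w v hvw.symm
    obtain ⟨D, hD, hDv⟩ := ex_mem4 hF hwv hnM
    obtain ⟨D', hD', hDv'⟩ := ex_mem4 hF' hwv hnM
    have e1 := hv w hvw D hD hDv.symm D' hD' hDv'.symm
    have e2 := two4 h hxy hF hc hwx hwy hC hD hCa hDv (hEM w a hwa) hnM hav
    have e3 := two4 h hxy hF' hc' hwx hwy hC' hD' hCa' hDv' (hEM w a hwa) hnM hav
    cases h5 : col C <;> cases h6 : col D <;> cases h7 : col' C' <;> cases h8 : col' D' <;>
      simp_all
  have start : ∀ a, E.Adj z a → ∀ C ∈ F, C.Adj z a → ∀ C' ∈ F', C'.Adj z a →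
      col C = col' C' := fun a _ C hC hCa C' hC' hCa' =>
    hS C hC (C.edge_vert hCa) C' hC' (C'.edge_vert hCa')
  intro v hv
  have walk : ∀ {a b : E.verts} (p : E.coe.Walk a b), (∀ c, E.Adj a.1 c → ∀ C ∈ F, C.Adj a.1 c →
      ∀ C' ∈ F', C'.Adj a.1 c → col C = col' C') → ∀ c, E.Adj b.1 c → ∀ C ∈ F, C.Adj b.1 c →
      ∀ C' ∈ F', C'.Adj b.1 c → col C = col' C' := by
    intro a b p
    induction p with
    | nil => intro h1; exact h1
    | cons h1 p ih => intro h2; exact ih (step _ _ h1 h2)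
  obtain ⟨p⟩ := hE.coe.preconnected ⟨z, hz⟩ ⟨v, hv⟩
  exact walk p start

/-- connected subgraphs with the same neighbours at every common vertex -/
theorem verts_sub4 {H : SimpleGraph V} {C C' : H.Subgraph} (hC : C.Connected) {v : V}
    (hv : v ∈ C.verts) (hv' : v ∈ C'.verts)
    (hN : ∀ w, w ∈ C.verts → w ∈ C'.verts → C.neighborSet w = C'.neighborSet w) :
    C.verts ⊆ C'.verts := by
  intro w hw
  have walk : ∀ {a b : C.verts} (p : C.coe.Walk a b), a.1 ∈ C'.verts → b.1 ∈ C'.verts := by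
    intro a b p
    induction p with
    | nil => intro h1; exact h1
    | @cons a c b h1 p ih =>
      intro h2
      refine ih ?_
      have h3 : c.1 ∈ C.neighborSet a.1 := h1
      rw [hN a.1 a.2 h2] at h3
      have h4 : C'.Adj a.1 c.1 := h3
      exact C'.edge_vert h4.symm
  obtain ⟨p⟩ := hC.coe.preconnected ⟨v, hv⟩ ⟨w, hw⟩
  exact walk p hv'

theorem uniq_sub4 [Finite V] (G : SimpleGraph V) (M C₁ C₂ : G.Subgraph)
    (h : IsPermutationGraph G M C₁ C₂) (x y : V) (hxy : M.Adj x y) (hx : x ∈ C₁.verts)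
    (hy : y ∈ C₂.verts) (β : Bool)
    (F : Set (del G x y).Subgraph) (hF : IsFCC (del G x y) (wt M) F)
    (F' : Set (del G x y).Subgraph) (hF' : IsFCC (del G x y) (wt M) F')
    (col col' : (del G x y).Subgraph → Bool) (hc : IsCol F x y β col) (hc' : IsCol F' x y β col') :
    F ⊆ F' := by
  intro C hC
  have hM := Subgraph.isPerfectMatching_iff.1 h.perfect
  have hMu : ∀ {v a b : V}, M.Adj v a → M.Adj v b → a = b := by
    intro v a b ha hb
    obtain ⟨m, hm, hmu⟩ := hM v
    exact (hmu a ha).trans (hmu b hb).symm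
  have hdis : ∀ v, v ∈ C₁.verts → v ∈ C₂.verts → False := fun v h1 h2 =>
    Set.disjoint_left.1 h.disjoint h1 h2
  -- colours agree on the edges outside `M`
  have ag1 := agree4 h hxy hF hF' hc hc' C₁ h.circuit₁.1
    (fun u v huv => ((h.union u v).2 (Or.inl huv)).2) hx
    (fun w hw hwx => ⟨hwx, fun e => hdis w hw (e ▸ hy)⟩)
    (fun C hC h1 C' hC' h2 => by rw [hc.2.1 C hC h1, hc'.2.1 C' hC' h2])
  have ag2 := agree4 h hxy hF hF' hc hc' C₂ h.circuit₂.1
    (fun u v huv => ((h.union u v).2 (Or.inr huv)).2) hy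
    (fun w hw hwy => ⟨fun e => hdis w (e ▸ hx) hw, hwy⟩)
    (fun C hC h1 C' hC' h2 => by rw [hc.2.2 C hC h1, hc'.2.2 C' hC' h2])
  have ag : ∀ v a, G.Adj v a → ¬ M.Adj v a → ∀ C ∈ F, C.Adj v a → ∀ C' ∈ F', C'.Adj v a →
      col C = col' C' := by
    intro v a hva hn D hD hDa D' hD' hDa'
    rcases (h.union v a).1 ⟨hva, hn⟩ with h1 | h1
    · exact ag1 v (C₁.edge_vert h1) a h1 D hD hDa D' hD' hDa'
    · exact ag2 v (C₂.edge_vert h1) a h1 D hD hDa D' hD' hDa'
  have hGof : ∀ {u v : V}, (del G x y).Adj u v → G.Adj u v := by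
    intro u v huv
    rw [deleteEdges_adj] at huv
    exact huv.1
  -- a vertex and an edge of `C`
  obtain ⟨v, hv⟩ := (hF.1 C hC).1.nonempty
  obtain ⟨p, q, hpq, hN⟩ := Set.ncard_eq_two.1 ((hF.1 C hC).2 v hv)
  have hp : C.Adj v p := by
    have : p ∈ C.neighborSet v := by rw [hN]; exact Or.inl rfl
    exact this
  have hq : C.Adj v q := by
    have : q ∈ C.neighborSet v := by rw [hN]; exact Or.inr rfl
    exact this
  obtain ⟨a, hva, hna⟩ : ∃ a, C.Adj v a ∧ ¬ M.Adj v a := by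
    by_cases h1 : M.Adj v p
    · exact ⟨q, hq, fun h2 => hpq (hMu h1 h2)⟩
    · exact ⟨p, hp, h1⟩
  obtain ⟨C', hC', hva'⟩ := ex_mem4 hF' (C.adj_sub hva) hna
  have hcc := ag v a (hGof (C.adj_sub hva)) hna C hC hva C' hC' hva'
  -- neighbours at common vertices
  have end4 : ∀ z, z = x ∨ z = y → ∀ (F : Set (del G x y).Subgraph),
      IsFCC (del G x y) (wt M) F → ∀ C ∈ F, z ∈ C.verts →
      C.neighborSet z = {u | G.Adj z u ∧ ¬ M.Adj z u} := by
    intro z hz F hF C hC hzC
    obtain ⟨A, hA, hzA, hAadj, hAu⟩ := local1 G M C₁ C₂ h x y hxy F hF z hz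
    have hCA := hAu C hC hzC
    subst hCA
    ext u
    constructor
    · intro hu
      have hu' : C.Adj z u := hu
      have h1 := C.adj_sub hu'
      refine ⟨hGof h1, fun h2 => ?_⟩
      rw [deleteEdges_adj] at h1
      apply h1.2
      rw [Set.mem_singleton_iff]
      rcases hz with rfl | rfl
      · rw [hMu h2 hxy]
      · rw [hMu h2 hxy.symm, Sym2.eq_swap]
    · rintro ⟨h1, h2⟩
      exact hAadj u h1 h2
  have hNN : ∀ w, w ∈ C.verts → w ∈ C'.verts → C.neighborSet w = C'.neighborSet w := by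
    intro w hw hw'
    by_cases hwz : w = x ∨ w = y
    · rw [end4 w hwz F hF C hC hw, end4 w hwz F' hF' C' hC' hw']
    push Not at hwz
    obtain ⟨hwx, hwy⟩ := hwz
    have form : ∀ (F : Set (del G x y).Subgraph), IsFCC (del G x y) (wt M) F → ∀ C ∈ F,
        w ∈ C.verts → ∃ m p, M.Adj w m ∧ G.Adj w p ∧ ¬ M.Adj w p ∧ C.neighborSet w = {m, p} := by
      intro F hF C hC hw
      obtain ⟨m, a, b, hm, ha, hna, hb, hnb, hab, hcov, A, hA, B, hB, hAB, hNA, hNB, hall⟩ :=
        local2 G M C₁ C₂ h x y hxy F hF w hwx hwy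
      rcases hall C hC hw with rfl | rfl
      · exact ⟨m, a, hm, ha, hna, hNA⟩
      · exact ⟨m, b, hm, hb, hnb, hNB⟩
    obtain ⟨m, p, hm, hp, hnp, e1⟩ := form F hF C hC hw
    obtain ⟨m', p', hm', hp', hnp', e2⟩ := form F' hF' C' hC' hw'
    have hmm : m = m' := hMu hm hm'
    subst hmm
    have hpp : p = p' := by
      by_contra hne
      have hCp : C.Adj w p := by
        have : p ∈ C.neighborSet w := by rw [e1]; exact Or.inr rfl
        exact this
      have hCp' : C'.Adj w p' := by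
        have : p' ∈ C'.neighborSet w := by rw [e2]; exact Or.inr rfl
        exact this
      obtain ⟨D, hD, hDp⟩ := ex_mem4 hF' (del_adj4 hwx hwy hp) hnp
      have h1 := ag w p hp hnp C hC hCp D hD hDp
      have h2 := two4 h hxy hF' hc' hwx hwy hC' hD hCp' hDp hnp' hnp (fun e => hne e.symm)
      exact h2 (hcc.symm.trans h1)
    rw [e1, e2, hpp]
  have hv' : v ∈ C'.verts := C'.edge_vert hva'
  have hs1 := verts_sub4 (hF.1 C hC).1 hv hv' hNN
  have hs2 := verts_sub4 (hF'.1 C' hC').1 hv' hv (fun w h1 h2 => (hNN w h2 h1).symm)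
  have hEq : C = C' := by
    ext u w
    · exact ⟨fun h1 => hs1 h1, fun h1 => hs2 h1⟩
    · constructor
      · intro h1
        have h2 := hNN u (C.edge_vert h1) (hs1 (C.edge_vert h1))
        have h3 : w ∈ C.neighborSet u := h1
        rw [h2] at h3
        exact h3
      · intro h1
        have h2 := hNN u (hs2 (C'.edge_vert h1)) (C'.edge_vert h1)
        have h3 : w ∈ C'.neighborSet u := h1
        rw [← h2] at h3
        exact h3
  rw [hEq]
  exact hC'

/-- R4: a cover with a colouring is determined by the colour at `y` -/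
theorem uniq [Finite V] (G : SimpleGraph V) (M C₁ C₂ : G.Subgraph)
    (h : IsPermutationGraph G M C₁ C₂) (x y : V) (hxy : M.Adj x y) (hx : x ∈ C₁.verts)
    (hy : y ∈ C₂.verts) (β : Bool)
    (F : Set (del G x y).Subgraph) (hF : IsFCC (del G x y) (wt M) F)
    (F' : Set (del G x y).Subgraph) (hF' : IsFCC (del G x y) (wt M) F')
    (col col' : (del G x y).Subgraph → Bool) (hc : IsCol F x y β col) (hc' : IsCol F' x y β col') :
    F = F' :=
  Set.Subset.antisymm (uniq_sub4 G M C₁ C₂ h x y hxy hx hy β F hF F' hF' col col' hc hc')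
    (uniq_sub4 G M C₁ C₂ h x y hxy hx hy β F' hF' F hF col' col hc' hc)

end Pool.Agent.H98.TC
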