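import Mathlib
import Pool.Agent.H98.TC.Defs
import Pool.Agent.H98.TC.Conn
import Pool.Agent.H98.TC.Sep
import Pool.Agent.H98.TC.Local
import Pool.Agent.H98.TC.Chain
import Pool.Agent.H98.TC.Uniq
import Pool.Agent.H98.TC.Alt
import Pool.Agent.H98.TC.Fam

set_option autoImplicit false

/-!
The two faithful circuit covers of `(G - e, w)` in a critical contra pair (MP_a46c6f_co): assembly.
-/

namespace Pool.Agent.H98.TC

open SimpleGraph Pool.Agent.H5.Goddyn

variable {V : Type*}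

/-- the colours along a chain -/
theorem col_chain {H : SimpleGraph V} {F : Set H.Subgraph} {x y : V} {β : Bool}
    {col : H.Subgraph → Bool} (hc : IsCol F x y β col) {m : ℕ} {D : ℕ → H.Subgraph}
    (hinj : Set.InjOn D {i | i ≤ m}) (hF : F = D '' {i | i ≤ m}) (hx : x ∈ (D 0).verts)
    (hy : y ∈ (D m).verts)
    (hm : ∀ i ≤ m, ∀ j ≤ m, i < j → (¬ Disjoint (D i).verts (D j).verts ↔ j = i + 1)) :
    β = decide (m % 2 = 1) := by
  have hmem : ∀ i ≤ m, D i ∈ F := fun i hi => by rw [hF]; exact ⟨i, hi, rfl⟩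
  have key : ∀ i ≤ m, col (D i) = decide (i % 2 = 1) := by
    intro i
    induction i with
    | zero => intro h0; rw [hc.2.1 _ (hmem 0 h0) hx]; rfl
    | succ i ih =>
      intro hi
      have h1 := ih (by omega)
      have h2 : D i ≠ D (i + 1) := fun e => by
        have := hinj (show i ≤ m by omega) hi e
        omega
      have h3 := hc.1 _ (hmem i (by omega)) _ (hmem (i + 1) hi) h2
        ((hm i (by omega) (i + 1) hi (by omega)).2 rfl)
      rw [h1] at h3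
      rcases Nat.mod_two_eq_zero_or_one i with h4 | h4
      · have h5 : (i + 1) % 2 = 1 := by omega
        rw [h4] at h3
        rw [h5]
        simpa using h3.symm
      · have h5 : (i + 1) % 2 = 0 := by omega
        rw [h4] at h3
        rw [h5]
        simpa using h3.symm
  rw [← key m le_rfl]
  exact (hc.2.2 _ (hmem m le_rfl) hy).symm

/-- a chain has a colouring -/
theorem chain_col {H : SimpleGraph V} {F : Set H.Subgraph} {x y : V} {m : ℕ} {D : ℕ → H.Subgraph}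
    (hinj : Set.InjOn D {i | i ≤ m}) (hF : F = D '' {i | i ≤ m}) (hx : x ∈ (D 0).verts)
    (hy : y ∈ (D m).verts)
    (hm : ∀ i ≤ m, ∀ j ≤ m, i < j → (¬ Disjoint (D i).verts (D j).verts ↔ j = i + 1))
    (hxu : ∃ A ∈ F, x ∈ A.verts ∧ ∀ C ∈ F, x ∈ C.verts → C = A)
    (hyu : ∃ A ∈ F, y ∈ A.verts ∧ ∀ C ∈ F, y ∈ C.verts → C = A) :
    ∃ col : H.Subgraph → Bool, IsCol F x y (decide (m % 2 = 1)) col := by
  classical
  have hmem : ∀ i ≤ m, D i ∈ F := fun i hi => by rw [hF]; exact ⟨i, hi, rfl⟩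
  set col : H.Subgraph → Bool := fun C => decide (∃ i, i ≤ m ∧ i % 2 = 1 ∧ C = D i) with hcol
  have hk : ∀ i ≤ m, col (D i) = decide (i % 2 = 1) := by
    intro i hi
    simp only [hcol]
    by_cases h2 : i % 2 = 1
    · rw [decide_eq_true (⟨i, hi, h2, rfl⟩ : ∃ j, j ≤ m ∧ j % 2 = 1 ∧ D i = D j),
        decide_eq_true h2]
    · rw [decide_eq_false h2, decide_eq_false]
      rintro ⟨j, hj, hj2, he⟩
      have := hinj hi hj he
      subst this
      exact h2 hj2
  refine ⟨col, ?_, ?_, ?_⟩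
  · intro C hC E hE hne hdis
    rw [hF] at hC hE
    obtain ⟨i, hi, rfl⟩ := hC
    obtain ⟨j, hj, rfl⟩ := hE
    have hi' : i ≤ m := hi
    have hj' : j ≤ m := hj
    rw [hk i hi', hk j hj']
    have hij : i ≠ j := fun e => hne (by rw [e])
    rcases Nat.lt_or_gt_of_ne hij with h1 | h1
    · have h2 := (hm i hi' j hj' h1).1 hdis
      intro h3
      have h4 : (i % 2 = 1) ↔ (j % 2 = 1) := by
        simpa using h3
      omega
    · have h2 := (hm j hj' i hi' h1).1 (fun h => hdis h.symm)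
      intro h3
      have h4 : (i % 2 = 1) ↔ (j % 2 = 1) := by
        simpa using h3
      omega
  · intro C hC hxC
    obtain ⟨A, hA, hxA, hu⟩ := hxu
    have h1 : C = D 0 := (hu C hC hxC).trans (hu (D 0) (hmem 0 (by omega)) hx).symm
    rw [h1, hk 0 (by omega)]
    rfl
  · intro C hC hyC
    obtain ⟨A, hA, hyA, hu⟩ := hyu
    have h1 : C = D m := (hu C hC hyC).trans (hu (D m) (hmem m le_rfl) hy).symm
    rw [h1, hk m le_rfl]

theorem main_chain [Finite V] (G : SimpleGraph V) (M C₁ C₂ : G.Subgraph)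
    (h : IsPermutationGraph G M C₁ C₂) (hrem : ∀ C : G.Subgraph, ¬ Removable G (wt M) C)
    (x y : V) (hxy : M.Adj x y) (F : Set (del G x y).Subgraph)
    (hF : IsFCC (del G x y) (wt M) F) :
    ∃ (m : ℕ) (D : ℕ → (del G x y).Subgraph), 1 ≤ m ∧ Set.InjOn D {i | i ≤ m} ∧
      F = D '' {i | i ≤ m} ∧ x ∈ (D 0).verts ∧ y ∈ (D m).verts ∧
      ∀ i ≤ m, ∀ j ≤ m, i < j → (¬ Disjoint (D i).verts (D j).verts ↔ j = i + 1) := by
  have hcon := conn_del G M C₁ C₂ h x y hxy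
  refine chain F x y hcon.1 (fun C hC => (hF.1 C hC).1) ?_ ?_ ?_ (hcon.2 F hF) ?_
  · intro u v huv
    have h1 := hF.2 s(u, v) huv
    have h2 : 0 < wt M s(u, v) := by
      unfold wt
      split_ifs <;> omega
    rw [← h1] at h2
    obtain ⟨C, hC⟩ := Set.nonempty_of_ncard_ne_zero h2.ne'
    exact ⟨C, hC.1, hC.2⟩
  · obtain ⟨A, hA, hxA, -, hu⟩ := local1 G M C₁ C₂ h x y hxy F hF x (Or.inl rfl)
    exact ⟨A, hA, hxA, hu⟩
  · obtain ⟨A, hA, hyA, -, hu⟩ := local1 G M C₁ C₂ h x y hxy F hF y (Or.inr rfl)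
    exact ⟨A, hA, hyA, hu⟩
  · intro A hA hxA hyA hr
    obtain ⟨C, hC⟩ := sep G M C₁ C₂ h x y hxy F hF A hA hxA hyA hr
    exact hrem C hC

theorem main_aux [Finite V] (G : SimpleGraph V) (M C₁ C₂ : G.Subgraph)
    (h : IsPermutationGraph G M C₁ C₂) (hno : ¬ HasFaithfulCircuitCover G (wt M))
    (hrem : ∀ C : G.Subgraph, ¬ Removable G (wt M) C) (x y : V) (hxy : M.Adj x y)
    (hx : x ∈ C₁.verts) :
    {F : Set (del G x y).Subgraph | IsFCC (del G x y) (wt M) F}.ncard = 2 := by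
  have hy : y ∈ C₂.verts := other' h hxy hx
  obtain ⟨ho1, ho2⟩ := odd_of_no G M C₁ C₂ h hno
  have ex : ∀ β : Bool, ∃ (F : Set (del G x y).Subgraph) (col : (del G x y).Subgraph → Bool),
      IsFCC (del G x y) (wt M) F ∧ IsCol F x y β col := by
    intro β
    obtain ⟨κ₁, a1, a2⟩ := alt C₁ h.circuit₁ ho1 x hx false
    obtain ⟨κ₂, b1, b2⟩ := alt C₂ h.circuit₂ ho2 y hy β
    exact fam G M C₁ C₂ h x y hxy hx hy β κ₁ κ₂ a1 a2 b1 b2
  obtain ⟨F₀, col₀, hF₀, hc₀⟩ := ex false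
  obtain ⟨F₁, col₁, hF₁, hc₁⟩ := ex true
  rw [Set.ncard_eq_two]
  refine ⟨F₀, F₁, ?_, ?_⟩
  · intro he
    subst he
    obtain ⟨m, D, -, hinj, hD, hx0, hym, hm⟩ := main_chain G M C₁ C₂ h hrem x y hxy F₀ hF₀
    have e0 := col_chain hc₀ hinj hD hx0 hym hm
    have e1 := col_chain hc₁ hinj hD hx0 hym hm
    rw [← e1] at e0
    exact absurd e0 (by simp)
  · ext F
    constructor
    · intro hF
      have hF' : IsFCC (del G x y) (wt M) F := hF
      obtain ⟨m, D, -, hinj, hD, hx0, hym, hm⟩ := main_chain G M C₁ C₂ h hrem x y hxy F hF'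
      obtain ⟨A, hA, hxA, -, hu⟩ := local1 G M C₁ C₂ h x y hxy F hF' x (Or.inl rfl)
      obtain ⟨B, hB, hyB, -, hw⟩ := local1 G M C₁ C₂ h x y hxy F hF' y (Or.inr rfl)
      obtain ⟨col, hcol⟩ := chain_col hinj hD hx0 hym hm ⟨A, hA, hxA, hu⟩ ⟨B, hB, hyB, hw⟩
      cases hb : decide (m % 2 = 1) with
      | false =>
        rw [hb] at hcol
        exact Or.inl (uniq G M C₁ C₂ h x y hxy hx hy false F hF' F₀ hF₀ col col₀ hcol hc₀)
      | true =>
        rw [hb] at hcol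
        exact Or.inr (uniq G M C₁ C₂ h x y hxy hx hy true F hF' F₁ hF₁ col col₁ hcol hc₁)
    · rintro (rfl | rfl)
      · exact hF₀
      · exact hF₁

theorem main [Finite V] (G : SimpleGraph V) (M C₁ C₂ : G.Subgraph)
    (h : IsPermutationGraph G M C₁ C₂) (hno : ¬ HasFaithfulCircuitCover G (wt M))
    (hrem : ∀ C : G.Subgraph, ¬ Removable G (wt M) C) (x y : V) (hxy : M.Adj x y) :
    {F : Set (del G x y).Subgraph | IsFCC (del G x y) (wt M) F}.ncard = 2 ∧
    ∀ F : Set (del G x y).Subgraph, IsFCC (del G x y) (wt M) F →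
      ∃ (m : ℕ) (D : ℕ → (del G x y).Subgraph), 1 ≤ m ∧ Set.InjOn D {i | i ≤ m} ∧
        F = D '' {i | i ≤ m} ∧ x ∈ (D 0).verts ∧ y ∈ (D m).verts ∧
        ∀ i ≤ m, ∀ j ≤ m, i < j → (¬ Disjoint (D i).verts (D j).verts ↔ j = i + 1) := by
  refine ⟨?_, fun F hF => main_chain G M C₁ C₂ h hrem x y hxy F hF⟩
  rcases cover' h x with hx | hx
  · exact main_aux G M C₁ C₂ h hno hrem x y hxy hx
  · exact main_aux G M C₂ C₁ (swap' h) hno hrem x y hxy hx

end Pool.Agent.H98.TC
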