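import Mathlib
import Pool.Agent.H98.TC.Sep
import Pool.Agent.H98.TC.Local
import Pool.Agent.H98.TC.Chain
import Pool.Agent.H98.TC.Uniq
import Pool.Agent.H98.TC.Alt
import Pool.Agent.H98.TC.Fam
import Pool.Agent.H98.TC.Conn

set_option autoImplicit false

namespace Pool.Agent.H98.TC

open SimpleGraph Pool.Agent.H5.Goddyn

variable {V : Type*}

/-- the chain structure -/
def IsChain {H : SimpleGraph V} (F : Set H.Subgraph) (x y : V) (m : ℕ) (D : ℕ → H.Subgraph) : Prop :=
  1 ≤ m ∧ Set.InjOn D {i | i ≤ m} ∧ F = D '' {i | i ≤ m} ∧ x ∈ (D 0).verts ∧ y ∈ (D m).verts ∧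
    ∀ i ≤ m, ∀ j ≤ m, i < j → (¬ Disjoint (D i).verts (D j).verts ↔ j = i + 1)

theorem IsChain.mem {H : SimpleGraph V} {F : Set H.Subgraph} {x y : V} {m : ℕ}
    {D : ℕ → H.Subgraph} (h : IsChain F x y m D) {i : ℕ} (hi : i ≤ m) : D i ∈ F := by
  obtain ⟨_, _, h3, _⟩ := h
  rw [h3]
  exact ⟨i, hi, rfl⟩

theorem IsChain.col_eq {H : SimpleGraph V} {F : Set H.Subgraph} {x y : V} {m : ℕ}
    {D : ℕ → H.Subgraph} (h : IsChain F x y m D) {β : Bool} {col : H.Subgraph → Bool}
    (hc : IsCol F x y β col) : ∀ i ≤ m, col (D i) = decide (Odd i) := by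
  intro i
  induction i with
  | zero =>
    intro _
    rw [hc.2.1 _ (h.mem (Nat.zero_le _)) h.2.2.2.1]
    simp
  | succ i ih =>
    intro hi
    have h1 := ih (by omega)
    have hne : D i ≠ D (i + 1) := by
      intro he
      have := h.2.1 (show i ≤ m by omega) (show i + 1 ≤ m from hi) he
      omega
    have hd := (h.2.2.2.2.2 i (by omega) (i + 1) hi (by omega)).2 rfl
    have h2 := hc.1 _ (h.mem (show i ≤ m by omega)) _ (h.mem hi) hne hd
    rw [h1] at h2
    have h3 : col (D (i + 1)) = !decide (Odd i) := by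
      cases hh : col (D (i + 1)) <;> cases hh' : decide (Odd i) <;> simp_all
    rw [h3]
    by_cases ho : Odd i
    · have : ¬ Odd (i + 1) := by rw [Nat.odd_add_one]; simpa using ho
      simp [ho, this]
    · have : Odd (i + 1) := by rw [Nat.odd_add_one]; simpa using ho
      simp [ho, this]

theorem IsChain.beta {H : SimpleGraph V} {F : Set H.Subgraph} {x y : V} {m : ℕ}
    {D : ℕ → H.Subgraph} (h : IsChain F x y m D) {β : Bool} {col : H.Subgraph → Bool}
    (hc : IsCol F x y β col) : β = decide (Odd m) := by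
  rw [← h.col_eq hc m le_rfl, hc.2.2 _ (h.mem le_rfl) h.2.2.2.2.1]

theorem IsChain.ncard {H : SimpleGraph V} {F : Set H.Subgraph} {x y : V} {m : ℕ}
    {D : ℕ → H.Subgraph} (h : IsChain F x y m D) : F.ncard = m + 1 := by
  rw [h.2.2.1, Set.ncard_image_of_injOn h.2.1]
  have : {i : ℕ | i ≤ m} = ((Finset.range (m + 1) : Finset ℕ) : Set ℕ) := by
    ext i
    simp [Nat.lt_succ_iff]
  rw [this, Set.ncard_coe_finset, Finset.card_range]

theorem IsChain.exists_col {H : SimpleGraph V} {F : Set H.Subgraph} {x y : V} {m : ℕ}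
    {D : ℕ → H.Subgraph} (h : IsChain F x y m D)
    (hx : ∃ A ∈ F, x ∈ A.verts ∧ ∀ C ∈ F, x ∈ C.verts → C = A)
    (hy : ∃ A ∈ F, y ∈ A.verts ∧ ∀ C ∈ F, y ∈ C.verts → C = A) :
    ∃ col : H.Subgraph → Bool, IsCol F x y (decide (Odd m)) col := by
  classical
  set col : H.Subgraph → Bool := fun C => decide (∃ i ≤ m, Odd i ∧ D i = C) with hcol
  have hval : ∀ i ≤ m, col (D i) = decide (Odd i) := by
    intro i hi
    rw [hcol]
    apply decide_eq_decide.2
    constructor
    · rintro ⟨j, hj, hj2, hj3⟩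
      rwa [← h.2.1 (show j ≤ m from hj) (show i ≤ m from hi) hj3]
    · intro ho
      exact ⟨i, hi, ho, rfl⟩
  have hFm : ∀ C ∈ F, ∃ i ≤ m, D i = C := by
    intro C hC
    rw [h.2.2.1] at hC
    obtain ⟨i, hi, rfl⟩ := hC
    exact ⟨i, hi, rfl⟩
  obtain ⟨A, hA, hxA, hxu⟩ := hx
  obtain ⟨B, hB, hyB, hyu⟩ := hy
  refine ⟨col, ?_, ?_, ?_⟩
  · intro C hC C' hC' hne hd
    obtain ⟨i, hi, rfl⟩ := hFm C hC
    obtain ⟨j, hj, rfl⟩ := hFm C' hC'
    rw [hval i hi, hval j hj]
    rcases lt_trichotomy i j with hij | hij | hij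
    · have := (h.2.2.2.2.2 i hi j hj hij).1 hd
      subst this
      by_cases ho : Odd i
      · have : ¬ Odd (i + 1) := by rw [Nat.odd_add_one]; simpa using ho
        simp [ho, this]
      · have : Odd (i + 1) := by rw [Nat.odd_add_one]; simpa using ho
        simp [ho, this]
    · exact absurd (by rw [hij]) hne
    · have := (h.2.2.2.2.2 j hj i hi hij).1 (by rwa [disjoint_comm])
      subst this
      by_cases ho : Odd j
      · have : ¬ Odd (j + 1) := by rw [Nat.odd_add_one]; simpa using ho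
        simp [ho, this]
      · have : Odd (j + 1) := by rw [Nat.odd_add_one]; simpa using ho
        simp [ho, this]
  · intro C hC hxC
    rw [hxu C hC hxC, ← hxu _ (h.mem (Nat.zero_le _)) h.2.2.2.1, hval 0 (Nat.zero_le _)]
    simp
  · intro C hC hyC
    rw [hyu C hC hyC, ← hyu _ (h.mem le_rfl) h.2.2.2.2.1, hval m le_rfl]

theorem main1 [Finite V] (G : SimpleGraph V) (M C₁ C₂ : G.Subgraph)
    (h : IsPermutationGraph G M C₁ C₂) (hno : ¬ HasFaithfulCircuitCover G (wt M))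
    (hrem : ∀ C : G.Subgraph, ¬ Removable G (wt M) C) (x y : V) (hxy : M.Adj x y)
    (hx : x ∈ C₁.verts) (hy : y ∈ C₂.verts) :
    {F : Set (del G x y).Subgraph | IsFCC (del G x y) (wt M) F}.ncard = 2 ∧
    (∃ F : Set (del G x y).Subgraph, IsFCC (del G x y) (wt M) F ∧ Odd F.ncard) ∧
    (∃ F : Set (del G x y).Subgraph, IsFCC (del G x y) (wt M) F ∧ Even F.ncard) ∧
    ∀ F : Set (del G x y).Subgraph, IsFCC (del G x y) (wt M) F →
      ∃ (m : ℕ) (D : ℕ → (del G x y).Subgraph), IsChain F x y m D := by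
  classical
  obtain ⟨o1, o2⟩ := odd_of_no G M C₁ C₂ h hno
  obtain ⟨κ₁, h1x, h1⟩ := alt C₁ h.circuit₁ o1 x hx false
  have hex : ∀ β : Bool, ∃ (F : Set (del G x y).Subgraph) (col : (del G x y).Subgraph → Bool),
      IsFCC (del G x y) (wt M) F ∧ IsCol F x y β col := by
    intro β
    obtain ⟨κ₂, h2y, h2⟩ := alt C₂ h.circuit₂ o2 y hy β
    exact fam G M C₁ C₂ h x y hxy hx hy β κ₁ κ₂ h1x h1 h2y h2
  have hxu : ∀ F : Set (del G x y).Subgraph, IsFCC (del G x y) (wt M) F →
      ∃ A ∈ F, x ∈ A.verts ∧ ∀ C ∈ F, x ∈ C.verts → C = A := by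
    intro F hF
    obtain ⟨A, hA, hxA, -, hu⟩ := local1 G M C₁ C₂ h x y hxy F hF x (Or.inl rfl)
    exact ⟨A, hA, hxA, hu⟩
  have hyu : ∀ F : Set (del G x y).Subgraph, IsFCC (del G x y) (wt M) F →
      ∃ A ∈ F, y ∈ A.verts ∧ ∀ C ∈ F, y ∈ C.verts → C = A := by
    intro F hF
    obtain ⟨A, hA, hyA, -, hu⟩ := local1 G M C₁ C₂ h x y hxy F hF y (Or.inr rfl)
    exact ⟨A, hA, hyA, hu⟩
  have hch : ∀ F : Set (del G x y).Subgraph, IsFCC (del G x y) (wt M) F →
      ∃ (m : ℕ) (D : ℕ → (del G x y).Subgraph), IsChain F x y m D := by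
    intro F hF
    apply chain F x y (conn_del G M C₁ C₂ h x y hxy).1 (fun C hC => (hF.1 C hC).1) _ (hxu F hF)
      (hyu F hF) ((conn_del G M C₁ C₂ h x y hxy).2 F hF)
    · intro A hA hxA hyA hr
      obtain ⟨C, hC⟩ := sep G M C₁ C₂ h x y hxy F hF A hA hxA hyA hr
      exact hrem C hC
    · intro u v huv
      have h1 := hF.2 s(u, v) huv
      have h2 : {C | C ∈ F ∧ s(u, v) ∈ C.edgeSet}.Nonempty := by
        apply Set.nonempty_of_ncard_ne_zero
        rw [h1, wt]
        split_ifs <;> omega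
      obtain ⟨C, hC, hC2⟩ := h2
      exact ⟨C, hC, hC2⟩
  choose Fb colb hFb hcolb using hex
  refine ⟨?_, ⟨Fb false, hFb false, ?_⟩, ⟨Fb true, hFb true, ?_⟩, hch⟩
  rotate_left
  · obtain ⟨m, D, hD⟩ := hch (Fb false) (hFb false)
    have e1 := hD.beta (hcolb false)
    rw [hD.ncard]
    have e2 : ¬ Odd m := of_decide_eq_false e1.symm
    rw [Nat.odd_add_one]
    exact e2
  · obtain ⟨m, D, hD⟩ := hch (Fb true) (hFb true)
    have e1 := hD.beta (hcolb true)
    rw [hD.ncard]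
    have e2 : Odd m := of_decide_eq_true e1.symm
    exact e2.add_one
  have hS : {F : Set (del G x y).Subgraph | IsFCC (del G x y) (wt M) F} = {Fb false, Fb true} := by
    ext F
    constructor
    · intro hF
      obtain ⟨m, D, hD⟩ := hch F hF
      obtain ⟨col, hcol⟩ := hD.exists_col (hxu F hF) (hyu F hF)
      have he := uniq G M C₁ C₂ h x y hxy hx hy (decide (Odd m)) F hF (Fb (decide (Odd m)))
        (hFb _) col (colb _) hcol (hcolb _)
      rw [he]
      cases decide (Odd m)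
      · exact Or.inl rfl
      · exact Or.inr rfl
    · rintro (rfl | rfl)
      · exact hFb _
      · exact hFb _
  rw [hS]
  apply Set.ncard_pair
  intro he
  obtain ⟨m, D, hD⟩ := hch (Fb false) (hFb false)
  have e1 := hD.beta (hcolb false)
  have e2 : true = decide (Odd m) := by
    apply IsChain.beta (F := Fb true) (x := x) (y := y) (D := D) _ (hcolb true)
    rw [← he]
    exact hD
  rw [← e2] at e1
  exact Bool.false_ne_true e1

theorem cover {G : SimpleGraph V} {M C₁ C₂ : G.Subgraph} (h : IsPermutationGraph G M C₁ C₂)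
    (v : V) : v ∈ C₁.verts ∨ v ∈ C₂.verts := by
  have h3 := h.cubic v
  obtain ⟨m, hm, hmu⟩ := (Subgraph.isPerfectMatching_iff.1 h.perfect) v
  have : ∃ u ∈ G.neighborSet v, u ≠ m := by
    by_contra hcon
    push Not at hcon
    have h4 : G.neighborSet v ⊆ {m} := fun u hu => hcon u hu
    have h5 := Set.ncard_le_ncard h4 (Set.finite_singleton m)
    rw [h3, Set.ncard_singleton] at h5
    omega
  obtain ⟨u, hu, hum⟩ := this
  have h6 : ¬ M.Adj v u := fun hMu => hum (hmu u hMu)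
  rcases (h.union v u).1 ⟨hu, h6⟩ with h7 | h7
  · exact Or.inl (C₁.edge_vert h7)
  · exact Or.inr (C₂.edge_vert h7)

theorem swap {G : SimpleGraph V} {M C₁ C₂ : G.Subgraph} (h : IsPermutationGraph G M C₁ C₂) :
    IsPermutationGraph G M C₂ C₁ where
  cubic := h.cubic
  perfect := h.perfect
  circuit₁ := h.circuit₂
  circuit₂ := h.circuit₁
  disjoint := h.disjoint.symm
  union := fun u v => (h.union u v).trans or_comm
  chordless₁ := h.chordless₂
  chordless₂ := h.chordless₁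

theorem other {G : SimpleGraph V} {M C₁ C₂ : G.Subgraph} (h : IsPermutationGraph G M C₁ C₂)
    {x y : V} (hxy : M.Adj x y) (hx : x ∈ C₁.verts) : y ∈ C₂.verts := by
  rcases cover h y with hy | hy
  · exfalso
    have h1 : C₁.Adj x y := h.chordless₁ hx hy (M.adj_sub hxy)
    exact ((h.union x y).2 (Or.inl h1)).2 hxy
  · exact hy

theorem main' [Finite V] (G : SimpleGraph V) (M C₁ C₂ : G.Subgraph)
    (h : IsPermutationGraph G M C₁ C₂) (hno : ¬ HasFaithfulCircuitCover G (wt M))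
    (hrem : ∀ C : G.Subgraph, ¬ Removable G (wt M) C) (x y : V) (hxy : M.Adj x y) :
    {F : Set (del G x y).Subgraph | IsFCC (del G x y) (wt M) F}.ncard = 2 ∧
    (∃ F : Set (del G x y).Subgraph, IsFCC (del G x y) (wt M) F ∧ Odd F.ncard) ∧
    (∃ F : Set (del G x y).Subgraph, IsFCC (del G x y) (wt M) F ∧ Even F.ncard) ∧
    ∀ F : Set (del G x y).Subgraph, IsFCC (del G x y) (wt M) F →
      ∃ (m : ℕ) (D : ℕ → (del G x y).Subgraph), 1 ≤ m ∧ Set.InjOn D {i | i ≤ m} ∧
        F = D '' {i | i ≤ m} ∧ x ∈ (D 0).verts ∧ y ∈ (D m).verts ∧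
        ∀ i ≤ m, ∀ j ≤ m, i < j → (¬ Disjoint (D i).verts (D j).verts ↔ j = i + 1) := by
  rcases cover h x with hx | hx
  · exact main1 G M C₁ C₂ h hno hrem x y hxy hx (other h hxy hx)
  · exact main1 G M C₂ C₁ (swap h) hno hrem x y hxy hx (other (swap h) hxy hx)

end Pool.Agent.H98.TC
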